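import Mathlib

set_option autoImplicit false

/-! Averaging over the cosets of a subgroup of finite index. -/

noncomputable section

open Module

namespace Pool.Agent.B4801b

variable {K : Type*} [Field K] {V : Type*} [AddCommGroup V] [Module K V]
variable {G : Type*} [Group G]

/-- A subspace is stable under the group `G`. -/
def GStable (ρ : Representation K G V) (W : Submodule K V) : Prop :=
  ∀ σ : G, ∀ x ∈ W, ρ σ x ∈ W

theorem exists_compl_of_finiteIndex [CharZero K] (ρ : Representation K G V) (G' : Subgroup G)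
    [G'.FiniteIndex] (W : Submodule K V) (hW : GStable ρ W)
    (h : ∃ W' : Submodule K V, (∀ σ ∈ G', ∀ x ∈ W', ρ σ x ∈ W') ∧ IsCompl W W') :
    ∃ W' : Submodule K V, GStable ρ W' ∧ IsCompl W W' := by
  obtain ⟨W₁, hW₁, hc⟩ := h
  -- the projection onto `W` along `W₁`
  let π : Module.End K V := W.subtype ∘ₗ W.projectionOnto W₁ hc
  have hπW : ∀ x, π x ∈ W := fun x => (W.projectionOnto W₁ hc x).2
  have hπid : ∀ x ∈ W, π x = x := fun x hx => by
    change ((W.projectionOnto W₁ hc x : W) : V) = x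
    exact congrArg Subtype.val (Submodule.projectionOnto_apply_left hc ⟨x, hx⟩)
  have hπker : ∀ x ∈ W₁, π x = 0 := fun x hx => by
    change ((W.projectionOnto W₁ hc x : W) : V) = 0
    rw [(Submodule.projectionOnto_apply_eq_zero_iff hc).mpr hx]
    rfl
  have hπcomm : ∀ σ ∈ G', ∀ x, π (ρ σ x) = ρ σ (π x) := by
    intro σ hσ x
    have : x ∈ W ⊔ W₁ := by rw [hc.sup_eq_top]; trivial
    obtain ⟨y, hy, z, hz, rfl⟩ := Submodule.mem_sup.mp this
    rw [map_add, map_add, hπid _ (hW σ y hy), hπker _ (hW₁ σ hσ z hz), map_add, hπid y hy,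
      hπker z hz, add_zero, add_zero]
  -- conjugates of the projection
  let F : G → Module.End K V := fun σ => ρ σ * π * ρ σ⁻¹
  have hF : ∀ σ τ : G, σ⁻¹ * τ ∈ G' → F σ = F τ := by
    intro σ τ h
    refine LinearMap.ext fun x => ?_
    change ρ σ (π (ρ σ⁻¹ x)) = ρ τ (π (ρ τ⁻¹ x))
    have h1 : ρ σ⁻¹ x = ρ (σ⁻¹ * τ) (ρ τ⁻¹ x) := by
      rw [← Module.End.mul_apply, ← map_mul, mul_assoc, mul_inv_cancel, mul_one]
    rw [h1, hπcomm _ h, ← Module.End.mul_apply, ← map_mul, mul_inv_cancel_left]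
  haveI : Fintype (G ⧸ G') := Subgroup.fintypeQuotientOfFiniteIndex
  let Fq : G ⧸ G' → Module.End K V := Quotient.lift F (fun σ τ hst => hF σ τ (by
    exact QuotientGroup.leftRel_apply.mp hst))
  let m : K := (Fintype.card (G ⧸ G') : K)
  have hm : m ≠ 0 := Nat.cast_ne_zero.mpr Fintype.card_ne_zero
  let Q : Module.End K V := m⁻¹ • ∑ x : G ⧸ G', Fq x
  have hFW : ∀ σ x, F σ x ∈ W := fun σ x => hW σ _ (hπW _)
  have hFid : ∀ σ, ∀ x ∈ W, F σ x = x := by
    intro σ x hx
    change ρ σ (π (ρ σ⁻¹ x)) = x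
    rw [hπid _ (hW _ _ hx), ← Module.End.mul_apply, ← map_mul, mul_inv_cancel, map_one,
      Module.End.one_apply]
  have hQW : ∀ x, Q x ∈ W := by
    intro x
    rw [LinearMap.smul_apply, LinearMap.sum_apply]
    refine W.smul_mem _ (Submodule.sum_mem _ fun q _ => ?_)
    induction q using Quotient.inductionOn with
    | h σ => exact hFW σ x
  have hQid : ∀ x ∈ W, Q x = x := by
    intro x hx
    have : ∀ q : G ⧸ G', Fq q x = x := by
      intro q
      induction q using Quotient.inductionOn with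
      | h σ => exact hFid σ x hx
    rw [LinearMap.smul_apply, LinearMap.sum_apply, Finset.sum_congr rfl (fun q _ => this q),
      Finset.sum_const, Finset.card_univ, ← Nat.cast_smul_eq_nsmul K, smul_smul,
      inv_mul_cancel₀ hm, one_smul]
  have hQcomm : ∀ τ x, Q (ρ τ x) = ρ τ (Q x) := by
    intro τ x
    rw [LinearMap.smul_apply, LinearMap.smul_apply, LinearMap.sum_apply, LinearMap.sum_apply,
      map_smul, map_sum]
    congr 1
    refine Fintype.sum_bijective (fun q : G ⧸ G' => τ⁻¹ • q) (MulAction.bijective τ⁻¹) _ _ ?_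
    intro q
    induction q using Quotient.inductionOn with
    | h σ =>
      change F σ (ρ τ x) = ρ τ (F (τ⁻¹ * σ) x)
      change ρ σ (π (ρ σ⁻¹ (ρ τ x))) = ρ τ (ρ (τ⁻¹ * σ) (π (ρ (τ⁻¹ * σ)⁻¹ x)))
      rw [← Module.End.mul_apply (ρ σ⁻¹), ← map_mul, ← Module.End.mul_apply (ρ τ), ← map_mul,
        mul_inv_cancel_left, mul_inv_rev, inv_inv]
  refine ⟨LinearMap.ker Q, fun σ x hx => ?_, ?_⟩
  · rw [LinearMap.mem_ker] at hx ⊢
    rw [hQcomm, hx, map_zero]
  · constructor
    · rw [Submodule.disjoint_def]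
      intro x hx hx'
      rw [← hQid x hx]
      exact hx'
    · rw [codisjoint_iff, eq_top_iff]
      intro x _
      have : x = Q x + (x - Q x) := by abel
      rw [this]
      refine Submodule.add_mem_sup (hQW x) ?_
      rw [LinearMap.mem_ker, map_sub, hQid _ (hQW x), sub_self]

end Pool.Agent.B4801b
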