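import Pool.Agent.W_MP_b4801b_h67.Defs

set_option autoImplicit false

/-! Linear algebra: similitudes, isotropic subspaces and complements. -/

noncomputable section

open Polynomial Module

namespace Pool.Agent.B4801b

variable {K : Type*} [Field K] {V : Type*} [AddCommGroup V] [Module K V]

/-- `star c r f = X^r f(c/X)` for `natDegree f ≤ r`. -/
def star (c : K) (r : ℕ) (f : K[X]) : K[X] :=
  ∑ j ∈ Finset.range (r + 1), C (f.coeff j * c ^ j) * X ^ (r - j)

theorem star_eval {L : Type*} [Field L] [Algebra K L] (c : K) (r : ℕ) (f : K[X])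
    (hr : f.natDegree ≤ r) (β : L) (hβ : β ≠ 0) :
    aeval β (star c r f) = β ^ r * aeval (algebraMap K L c / β) f := by
  rw [star, map_sum, aeval_eq_sum_range' (Nat.lt_succ_of_le hr), Finset.mul_sum]
  refine Finset.sum_congr rfl fun j hj => ?_
  have hj' : j ≤ r := Nat.lt_succ_iff.mp (Finset.mem_range.mp hj)
  rw [map_mul, aeval_C, map_pow, aeval_X, Algebra.smul_def, map_mul, map_pow, div_pow]
  have : β ^ r = β ^ (r - j) * β ^ j := by rw [← pow_add, Nat.sub_add_cancel hj']
  rw [this]
  field_simp

theorem pairing_star (ψ : LinearMap.BilinForm K V) (A : Module.End K V) (c : K)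
    (hA : ∀ x y, ψ (A x) (A y) = c * ψ x y) (r : ℕ) (f : K[X]) (hr : f.natDegree ≤ r) (x y : V) :
    ψ (aeval A f x) ((A ^ r) y) = ψ x (aeval A (star c r f) y) := by
  have hpow : ∀ (j m : ℕ) (x y : V), ψ ((A ^ j) x) ((A ^ (j + m)) y) = c ^ j * ψ x ((A ^ m) y) := by
    intro j
    induction j with
    | zero => intro m x y; simp
    | succ j ih =>
      intro m x y
      have h1 : (A ^ (j + 1)) x = A ((A ^ j) x) := by rw [pow_succ']; rfl
      have h2 : (A ^ (j + 1 + m)) y = A ((A ^ (j + m)) y) := by
        rw [show j + 1 + m = (j + m) + 1 by ring, pow_succ']; rfl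
      rw [h1, h2, hA, ih, pow_succ]
      ring
  rw [aeval_eq_sum_range' (Nat.lt_succ_of_le hr), star, map_sum, LinearMap.sum_apply,
    LinearMap.sum_apply, map_sum, map_sum, LinearMap.sum_apply]
  refine Finset.sum_congr rfl fun j hj => ?_
  have hj' : j ≤ r := Nat.lt_succ_iff.mp (Finset.mem_range.mp hj)
  obtain ⟨m, rfl⟩ := Nat.exists_eq_add_of_le hj'
  rw [LinearMap.smul_apply, map_smul, LinearMap.smul_apply, hpow, Nat.add_sub_cancel_left, map_mul,
    aeval_C, map_pow, aeval_X, Module.End.mul_apply, Module.algebraMap_end_apply, map_smul,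
    smul_eq_mul, smul_eq_mul]
  ring

theorem ortho_of_coprime [FiniteDimensional K V] (ψ : LinearMap.BilinForm K V)
    (A : Module.End K V) (c : K) (hc : c ≠ 0)
    (hA : ∀ x y, ψ (A x) (A y) = c * ψ x y) (g h : K[X]) (hg : SelfDualPoly c g)
    (hgh : IsCoprime g h) (h0 : h.eval 0 ≠ 0)
    (x y : V) (hx : aeval A g x = 0) (hy : aeval A h y = 0) : ψ x y = 0 := by
  have hcop : IsCoprime (star c g.natDegree g) h := by
    by_contra hn
    rw [Polynomial.isCoprime_iff_aeval_ne_zero_of_isAlgClosed K (AlgebraicClosure K)] at hn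
    push Not at hn
    obtain ⟨β, hβ1, hβ2⟩ := hn
    have hβ : β ≠ 0 := by
      rintro rfl
      apply h0
      have : algebraMap K (AlgebraicClosure K) (h.eval 0) = 0 := by
        rw [← hβ2, ← Polynomial.aeval_algebraMap_apply_eq_algebraMap_eval, map_zero]
      exact (map_eq_zero _).mp this
    rw [star_eval c _ g le_rfl β hβ] at hβ1
    have h1 : aeval (algebraMap K (AlgebraicClosure K) c / β) g = 0 := by
      rcases mul_eq_zero.mp hβ1 with h | h
      · exact absurd h (pow_ne_zero _ hβ)
      · exact h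
    have h2 := hg _ h1
    have h3 : algebraMap K (AlgebraicClosure K) c / (algebraMap K (AlgebraicClosure K) c / β) = β := by
      have : algebraMap K (AlgebraicClosure K) c ≠ 0 := by
        simpa using hc
      field_simp
    rw [h3] at h2
    exact (Polynomial.isCoprime_iff_aeval_ne_zero_of_isAlgClosed K (AlgebraicClosure K) _ _).mp hgh β
      |>.elim (fun h => h h2) (fun h => h hβ2)
  obtain ⟨u, v, huv⟩ := hcop
  have hy' : y = aeval A (star c g.natDegree g) (aeval A u y) := by
    have := congrArg (fun f => aeval A f y) huv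
    simp only [map_add, map_mul, map_one, LinearMap.add_apply, Module.End.mul_apply, hy, map_zero,
      add_zero, Module.End.one_apply] at this
    rw [← Module.End.mul_apply, ← map_mul, mul_comm, map_mul, Module.End.mul_apply]
    exact this.symm
  rw [hy', ← pairing_star ψ A c hA _ g le_rfl, hx, map_zero, LinearMap.zero_apply]

/-- Main lemma: under the irreducibility of the primary components of `A` (with respect to `A` and the
family `E`), no nonzero subspace which is stable under `A` and `E` is totally isotropic. -/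
theorem eq_bot_of_isotropic [FiniteDimensional K V] (ψ : LinearMap.BilinForm K V)
    (hψ : ∀ x, (∀ y, ψ x y = 0) → x = 0)
    (A : Module.End K V) (c : K) (hc : c ≠ 0)
    (hA : ∀ x y, ψ (A x) (A y) = c * ψ x y) (E : Set (Module.End K V))
    (hdual : ∀ g : K[X], Irreducible g → g ∣ A.charpoly → SelfDualPoly c g)
    (hirr : ∀ g : K[X], Irreducible g → ∀ U : Submodule K V, (∀ x ∈ U, A x ∈ U) →
      (∀ e ∈ E, ∀ x ∈ U, e x ∈ U) → (∀ x ∈ U, ∃ n : ℕ, aeval A (g ^ n) x = 0) →
      U = ⊥ ∨ ∀ x, (∃ n : ℕ, aeval A (g ^ n) x = 0) → x ∈ U)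
    (hcomm : ∀ e ∈ E, ∀ x, e (A x) = A (e x))
    (I : Submodule K V) (hIA : ∀ x ∈ I, A x ∈ I) (hIE : ∀ e ∈ E, ∀ x ∈ I, e x ∈ I)
    (hI : ∀ x ∈ I, ∀ y ∈ I, ψ x y = 0) : I = ⊥ := by
  by_contra hne
  obtain ⟨x, hx, hx0⟩ := Submodule.exists_mem_ne_zero_of_ne_bot hne
  -- stability under polynomials in `A`
  have hpow : ∀ (n : ℕ) (x : V), x ∈ I → (A ^ n) x ∈ I := by
    intro n
    induction n with
    | zero => intro x hx; simpa using hx
    | succ n ih => intro x hx; rw [pow_succ]; exact ih _ (hIA x hx)
  have hpoly : ∀ (f : K[X]) (x : V), x ∈ I → aeval A f x ∈ I := by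
    intro f x hx
    rw [aeval_eq_sum_range, LinearMap.sum_apply]
    exact Submodule.sum_mem _ fun j _ => Submodule.smul_mem _ _ (hpow j x hx)
  -- a nonzero vector of `I` killed by an irreducible polynomial `g` dividing the char. polynomial
  have key : ∀ (n : ℕ) (m : K[X]), m.natDegree ≤ n → m ∣ A.charpoly → ∀ x ∈ I, x ≠ 0 →
      aeval A m x = 0 → ∃ g : K[X], Irreducible g ∧ g ∣ A.charpoly ∧ ∃ x' ∈ I, x' ≠ 0 ∧
        aeval A g x' = 0 := by
    intro n
    induction n with
    | zero =>
      intro m hm hmd x hx hx0 hmx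
      have hm0 : m ≠ 0 := fun h => (LinearMap.charpoly_monic A).ne_zero (by
        rw [h] at hmd; exact zero_dvd_iff.mp hmd)
      rw [eq_C_of_natDegree_eq_zero (Nat.le_zero.mp hm), aeval_C, Module.algebraMap_end_apply] at hmx
      rcases smul_eq_zero.mp hmx with h | h
      · exact absurd (by rw [eq_C_of_natDegree_eq_zero (Nat.le_zero.mp hm), h, C_0]) hm0
      · exact absurd h hx0
    | succ n ih =>
      intro m hm hmd x hx hx0 hmx
      have hm0 : m ≠ 0 := fun h => (LinearMap.charpoly_monic A).ne_zero (by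
        rw [h] at hmd; exact zero_dvd_iff.mp hmd)
      by_cases hu : IsUnit m
      · obtain ⟨a, ha, rfl⟩ := Polynomial.isUnit_iff.mp hu
        rw [aeval_C, Module.algebraMap_end_apply] at hmx
        rcases smul_eq_zero.mp hmx with h | h
        · exact absurd h ha.ne_zero
        · exact absurd h hx0
      · obtain ⟨g, hg, m', rfl⟩ := WfDvdMonoid.exists_irreducible_factor hu hm0
        by_cases h' : aeval A m' x = 0
        · refine ih m' ?_ ((Dvd.intro_left g rfl).trans hmd) x hx hx0 h'
          have hm'0 : m' ≠ 0 := right_ne_zero_of_mul hm0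
          have := natDegree_mul hg.ne_zero hm'0
          have := hg.natDegree_pos
          omega
        · refine ⟨g, hg, (Dvd.intro m' rfl).trans hmd, aeval A m' x, hpoly m' x hx, h', ?_⟩
          rw [← Module.End.mul_apply, ← map_mul]
          exact hmx
  obtain ⟨g, hg, hgP, x', hx', hx'0, hgx'⟩ := key _ A.charpoly le_rfl dvd_rfl x hx hx0
    (by rw [LinearMap.aeval_self_charpoly, LinearMap.zero_apply])
  -- the primary component is contained in `I`
  have hprim : ∀ x, (∃ n : ℕ, aeval A (g ^ n) x = 0) → x ∈ I := by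
    let U : Submodule K V :=
      { carrier := {x | x ∈ I ∧ ∃ n : ℕ, aeval A (g ^ n) x = 0}
        add_mem' := by
          rintro a b ⟨ha, n, hn⟩ ⟨hb, m, hm⟩
          refine ⟨I.add_mem ha hb, n + m, ?_⟩
          rw [map_add, pow_add, map_mul, Module.End.mul_apply, Module.End.mul_apply, hm, map_zero,
            add_zero, ← Module.End.mul_apply, ← map_mul, mul_comm, map_mul, Module.End.mul_apply, hn,
            map_zero]
        zero_mem' := ⟨I.zero_mem, 0, by simp⟩
        smul_mem' := by
          rintro a b ⟨hb, m, hm⟩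
          exact ⟨I.smul_mem _ hb, m, by rw [map_smul, hm, smul_zero]⟩ }
    have hpc : ∀ (f : K[X]) (y : V), aeval A f (A y) = A (aeval A f y) := by
      intro f y
      have : aeval A (f * X) y = aeval A (X * f) y := by rw [mul_comm]
      rwa [map_mul, map_mul, aeval_X, Module.End.mul_apply, Module.End.mul_apply] at this
    have hpe : ∀ e ∈ E, ∀ (f : K[X]) (y : V), aeval A f (e y) = e (aeval A f y) := by
      intro e he f y
      have hp : ∀ (n : ℕ) (z : V), (A ^ n) (e z) = e ((A ^ n) z) := by
        intro n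
        induction n with
        | zero => intro z; simp
        | succ n ih =>
          intro z
          rw [pow_succ, Module.End.mul_apply, Module.End.mul_apply, ← hcomm e he, ih]
      rw [aeval_eq_sum_range, LinearMap.sum_apply, LinearMap.sum_apply, map_sum]
      refine Finset.sum_congr rfl fun j _ => ?_
      rw [LinearMap.smul_apply, LinearMap.smul_apply, hp, map_smul]
    rcases hirr g hg U (fun y hy => ⟨hIA y hy.1, by
        obtain ⟨n, hn⟩ := hy.2
        exact ⟨n, by rw [hpc, hn, map_zero]⟩⟩)
      (fun e he y hy => ⟨hIE e he y hy.1, by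
        obtain ⟨n, hn⟩ := hy.2
        exact ⟨n, by rw [hpe e he, hn, map_zero]⟩⟩) (fun y hy => hy.2) with h | h
    · exact absurd ((Submodule.eq_bot_iff _).mp h x' ⟨hx', 1, by rw [pow_one]; exact hgx'⟩) hx'0
    · exact fun y hy => (h y hy).1
  -- decomposition of the char. polynomial
  have hP0 : A.charpoly ≠ 0 := (LinearMap.charpoly_monic A).ne_zero
  obtain ⟨h, hPh, hndvd⟩ :=
    (FiniteMultiplicity.of_prime_left hg.prime hP0).exists_eq_pow_mul_and_not_dvd
  generalize multiplicity g A.charpoly = a at hPh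
  have hcop : IsCoprime g h := (hg.coprime_iff_not_dvd).mpr hndvd
  have hinj : ∀ x, A x = 0 → x = 0 := by
    intro x hx
    apply hψ
    intro y
    have := hA x y
    rw [hx, map_zero, LinearMap.zero_apply] at this
    exact (mul_eq_zero.mp this.symm).resolve_left hc
  have h0 : h.eval 0 ≠ 0 := by
    intro h00
    have h1 : A.charpoly.eval 0 = 0 := by rw [hPh, eval_mul, h00, mul_zero]
    rw [LinearMap.eval_charpoly, map_zero, zero_sub] at h1
    obtain ⟨z, hz, hz0⟩ := Submodule.exists_mem_ne_zero_of_ne_bot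
      (LinearMap.bot_lt_ker_of_det_eq_zero h1).ne'
    rw [LinearMap.mem_ker, LinearMap.neg_apply, neg_eq_zero] at hz
    exact hz0 (hinj z hz)
  apply hx'0
  apply hψ
  intro y
  obtain ⟨u, v, huv⟩ := (hcop.pow_left (m := a))
  have hy : y = aeval A (v * h) y + aeval A (u * g ^ a) y := by
    rw [← LinearMap.add_apply, ← map_add, add_comm, huv, map_one, Module.End.one_apply]
  rw [hy, map_add]
  have e1 : ψ x' (aeval A (v * h) y) = 0 := by
    apply hI x' hx'
    apply hprim
    refine ⟨a, ?_⟩
    rw [← Module.End.mul_apply, ← map_mul, show g ^ a * (v * h) = v * (g ^ a * h) by ring, ← hPh,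
      map_mul, LinearMap.aeval_self_charpoly, mul_zero, LinearMap.zero_apply]
  have e2 : ψ x' (aeval A (u * g ^ a) y) = 0 := by
    apply ortho_of_coprime ψ A c hc hA g h (hdual g hg hgP) hcop h0 _ _ hgx'
    rw [← Module.End.mul_apply, ← map_mul, show h * (u * g ^ a) = u * (g ^ a * h) by ring, ← hPh,
      map_mul, LinearMap.aeval_self_charpoly, mul_zero, LinearMap.zero_apply]
  rw [e1, e2, add_zero]

end Pool.Agent.B4801b
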