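import Mathlib

set_option autoImplicit false

/-! Linear algebra: semisimplicity with respect to a commuting family of operators. -/

noncomputable section

open Module

namespace Pool.Agent.B4801b

variable {K : Type*} [Field K] {V : Type*} [AddCommGroup V] [Module K V]

/-- `W` is stable under the operators in `T`. -/
def Stable (T : Set (Module.End K V)) (W : Submodule K V) : Prop :=
  ∀ t ∈ T, ∀ x ∈ W, t x ∈ W

/-- A subspace stable under `T` as a submodule over the algebra generated by `T`. -/
def toSub (T : Set (Module.End K V)) (W : Submodule K V) (hW : Stable T W) :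
    Submodule (Algebra.adjoin K T) V where
  carrier := W
  add_mem' := W.add_mem
  zero_mem' := W.zero_mem
  smul_mem' := by
    rintro ⟨a, ha⟩ x hx
    change a x ∈ W
    induction ha using Algebra.adjoin_induction generalizing x with
    | mem t ht => exact hW t ht x hx
    | algebraMap r => exact W.smul_mem r hx
    | add a b _ _ iha ihb => exact W.add_mem (iha hx) (ihb hx)
    | mul a b _ _ iha ihb => exact iha (ihb hx)

/-- A submodule over the algebra generated by `T` as a subspace. -/
def ofSub (T : Set (Module.End K V)) (N : Submodule (Algebra.adjoin K T) V) : Submodule K V where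
  carrier := N
  add_mem' := N.add_mem
  zero_mem' := N.zero_mem
  smul_mem' := fun r x hx => by
    have := N.smul_mem (algebraMap K (Algebra.adjoin K T) r) hx
    exact this

theorem ofSub_stable (T : Set (Module.End K V)) (N : Submodule (Algebra.adjoin K T) V) :
    Stable T (ofSub T N) := fun t ht x hx =>
  N.smul_mem (⟨t, Algebra.subset_adjoin ht⟩ : Algebra.adjoin K T) hx

theorem isCompl_ofSub (T : Set (Module.End K V)) (N N' : Submodule (Algebra.adjoin K T) V)
    (h : IsCompl N N') : IsCompl (ofSub T N) (ofSub T N') := by
  constructor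
  · rw [Submodule.disjoint_def]
    intro x hx hx'
    exact Submodule.disjoint_def.mp h.disjoint x hx hx'
  · rw [codisjoint_iff, eq_top_iff]
    intro x _
    have : x ∈ N ⊔ N' := by rw [h.sup_eq_top]; trivial
    obtain ⟨y, hy, z, hz, rfl⟩ := Submodule.mem_sup.mp this
    exact Submodule.add_mem_sup (show y ∈ ofSub T N from hy) (show z ∈ ofSub T N' from hz)

/-- An operator commuting with `T`, as a linear map over the algebra generated by `T`. -/
def toLin (T : Set (Module.End K V)) (e : Module.End K V) (he : ∀ t ∈ T, ∀ x, e (t x) = t (e x)) :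
    V →ₗ[Algebra.adjoin K T] V where
  toFun := e
  map_add' := map_add e
  map_smul' := by
    rintro ⟨a, ha⟩ x
    change e (a x) = a (e x)
    induction ha using Algebra.adjoin_induction generalizing x with
    | mem t ht => exact he t ht x
    | algebraMap r => exact map_smul e r x
    | add a b _ _ iha ihb =>
      rw [LinearMap.add_apply, LinearMap.add_apply, map_add, iha, ihb]
    | mul a b _ _ iha ihb =>
      rw [Module.End.mul_apply, Module.End.mul_apply, iha, ihb]

/-- Abstract form: if the submodules stable under a family `E` of endomorphisms have complements, the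
module is semisimple. -/
theorem isSemisimple_of_stable_compl {R : Type*} [Ring R] {M : Type*} [AddCommGroup M] [Module R M]
    [IsArtinian R M] (E : Set (M →ₗ[R] M))
    (h : ∀ S : Submodule R M, (∀ e ∈ E, S.map e ≤ S) → ∃ S' : Submodule R M, IsCompl S S') :
    IsSemisimpleModule R M := by
  obtain ⟨S', hSS'⟩ := h (sSup {m : Submodule R M | IsSimpleModule R m}) (by
    intro e he
    conv_lhs => rw [sSup_eq_iSup]
    rw [Submodule.map_iSup, iSup_le_iff]
    intro m
    rw [Submodule.map_iSup, iSup_le_iff]
    intro hm
    haveI : IsSimpleModule R m := hm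
    let g : m →ₗ[R] M := e.comp m.subtype
    rcases LinearMap.injective_or_eq_zero g with hi | hz
    · refine le_sSup_of_le (?_ : IsSimpleModule R (m.map e)) le_rfl
      have e1 : m ≃ₗ[R] LinearMap.range g := LinearEquiv.ofInjective g hi
      have e2 : LinearMap.range g = m.map e := by
        rw [LinearMap.range_comp, Submodule.range_subtype]
      rw [← e2]
      exact IsSimpleModule.congr e1.symm
    · rintro _ ⟨x, hx, rfl⟩
      have : e x = 0 := LinearMap.congr_fun hz ⟨x, hx⟩
      rw [this]
      exact Submodule.zero_mem _)
  have hS'0 : S' = ⊥ := by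
    by_contra hne
    obtain ⟨m, hm, hle⟩ := (eq_bot_or_exists_atom_le S').resolve_left hne
    have hms : IsSimpleModule R m := isSimpleModule_iff_isAtom.mpr hm
    have hmS : m ≤ sSup {m : Submodule R M | IsSimpleModule R m} := le_sSup hms
    exact hm.1 (eq_bot_iff.mpr (fun x hx =>
      Submodule.disjoint_def.mp hSS'.disjoint x (hmS hx) (hle hx)))
  have hStop := hSS'.sup_eq_top
  rw [hS'0, sup_bot_eq] at hStop
  exact IsSemisimpleModule.of_sSup_simples_eq_top hStop

theorem semisimple_of_comm [FiniteDimensional K V] (T E : Set (Module.End K V))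
    (hcomm : ∀ e ∈ E, ∀ t ∈ T, ∀ x, e (t x) = t (e x))
    (h : ∀ W : Submodule K V, Stable T W → Stable E W →
      ∃ W' : Submodule K V, Stable T W' ∧ IsCompl W W')
    (W : Submodule K V) (hW : Stable T W) :
    ∃ W' : Submodule K V, Stable T W' ∧ IsCompl W W' := by
  haveI : IsArtinian (Algebra.adjoin K T) V := isArtinian_of_tower K inferInstance
  haveI : IsSemisimpleModule (Algebra.adjoin K T) V := by
    refine isSemisimple_of_stable_compl {f | ∃ e, ∃ he : e ∈ E, f = toLin T e (hcomm e he)} ?_
    intro S hS
    obtain ⟨S', hS', hSS'⟩ := h (ofSub T S) (ofSub_stable T S) (fun e he x hx =>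
      hS _ ⟨e, he, rfl⟩ ⟨x, hx, rfl⟩)
    refine ⟨toSub T S' hS', ?_, ?_⟩
    · rw [Submodule.disjoint_def]
      intro x hx hx'
      exact Submodule.disjoint_def.mp hSS'.disjoint x hx hx'
    · rw [codisjoint_iff, eq_top_iff]
      intro x _
      have : x ∈ ofSub T S ⊔ S' := by rw [hSS'.sup_eq_top]; trivial
      obtain ⟨y, hy, z, hz, rfl⟩ := Submodule.mem_sup.mp this
      exact Submodule.add_mem_sup hy (show z ∈ toSub T S' hS' from hz)
  obtain ⟨N, hN⟩ := exists_isCompl (toSub T W hW)
  exact ⟨ofSub T N, ofSub_stable T N, isCompl_ofSub T _ _ hN⟩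

end Pool.Agent.B4801b
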