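import Mathlib

set_option autoImplicit false

/-! Linear algebra: operators with squarefree characteristic polynomial. -/

noncomputable section

open Polynomial Module TensorProduct

namespace Pool.Agent.B4801b

variable {K : Type*} [Field K] {V : Type*} [AddCommGroup V] [Module K V]

theorem baseChange_aeval (L : Type*) [Field L] [Algebra K L] (A : Module.End K V) (f : K[X]) :
    (aeval A f).baseChange L = aeval (A.baseChange L) f := by
  have h := Polynomial.aeval_algHom_apply (Module.End.baseChangeHom K L V) A f
  exact h.symm

/-- An irreducible factor of the characteristic polynomial has a nonzero kernel. -/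
theorem exists_ker_ne_zero [FiniteDimensional K V] (A : Module.End K V) (f : K[X])
    (hf : Irreducible f) (hd : f ∣ A.charpoly) : ∃ x : V, x ≠ 0 ∧ aeval A f x = 0 := by
  by_contra hn
  push Not at hn
  have hinj : Function.Injective (aeval A f) := by
    rw [← LinearMap.ker_eq_bot, LinearMap.ker_eq_bot']
    intro x hx
    by_contra h
    exact hn x h hx
  let L := AlgebraicClosure K
  obtain ⟨μ, hμ⟩ := IsAlgClosed.exists_aeval_eq_zero L f
    (by exact (Polynomial.degree_pos_of_irreducible hf).ne')
  have hroot : (A.baseChange L).charpoly.IsRoot μ := by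
    rw [LinearMap.charpoly_baseChange, IsRoot.def, eval_map_algebraMap]
    obtain ⟨g, hg⟩ := hd
    rw [hg, map_mul, hμ, zero_mul]
  rw [← Module.End.hasEigenvalue_iff_isRoot_charpoly] at hroot
  obtain ⟨w, hw⟩ := hroot.exists_hasEigenvector
  have h1 : aeval (A.baseChange L) (f.map (algebraMap K L)) w = (f.map (algebraMap K L)).eval μ • w :=
    Module.End.aeval_apply_of_hasEigenvector hw
  rw [eval_map_algebraMap, hμ, zero_smul, aeval_map_algebraMap, ← baseChange_aeval] at h1
  have hinj2 : Function.Injective ((aeval A f).baseChange L) :=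
    Module.Flat.lTensor_preserves_injective_linearMap _ hinj
  exact hw.2 (hinj2 (by rw [h1, map_zero]))

/-- A nonzero vector killed by an irreducible polynomial generates a space of dimension at least
the degree. -/
theorem natDegree_le_finrank [FiniteDimensional K V] (A : Module.End K V) (f : K[X])
    (hf : Irreducible f) (U : Submodule K V) (hU : ∀ x ∈ U, A x ∈ U) (x : V) (hx : x ∈ U)
    (hx0 : x ≠ 0) (hfx : aeval A f x = 0) : f.natDegree ≤ finrank K U := by
  have hpow : ∀ (n : ℕ) (x : V), x ∈ U → (A ^ n) x ∈ U := by
    intro n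
    induction n with
    | zero => intro x hx; simpa using hx
    | succ n ih => intro x hx; rw [pow_succ]; exact ih _ (hU x hx)
  have hpoly : ∀ (f : K[X]) (x : V), x ∈ U → aeval A f x ∈ U := by
    intro f x hx
    rw [aeval_eq_sum_range, LinearMap.sum_apply]
    exact Submodule.sum_mem _ fun j _ => Submodule.smul_mem _ _ (hpow j x hx)
  let φ : degreeLT K f.natDegree →ₗ[K] U :=
    { toFun := fun p => ⟨aeval A (p : K[X]) x, hpoly _ _ hx⟩
      map_add' := fun p q => by ext; simp
      map_smul' := fun r p => by ext; simp }
  have hφ : Function.Injective φ := by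
    rw [← LinearMap.ker_eq_bot, LinearMap.ker_eq_bot']
    rintro ⟨p, hp⟩ hp0
    by_contra hne
    have hpne : p ≠ 0 := fun h => hne (by ext1; exact h)
    have hp1 : aeval A p x = 0 := congrArg Subtype.val hp0
    have hcop : IsCoprime f p := by
      rw [hf.coprime_iff_not_dvd]
      intro hd
      have := degree_le_of_dvd hd hpne
      have h2 := mem_degreeLT.mp hp
      rw [degree_eq_natDegree hf.ne_zero] at this
      exact absurd (lt_of_le_of_lt this h2) (lt_irrefl _)
    obtain ⟨u, v, huv⟩ := hcop
    apply hx0
    have := congrArg (fun q => aeval A q x) huv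
    simp only [map_add, map_mul, map_one, LinearMap.add_apply, Module.End.mul_apply, hfx, hp1,
      map_zero, add_zero, Module.End.one_apply] at this
    exact this.symm
  have h1 := LinearMap.finrank_le_finrank_of_injective hφ
  have h2 : finrank K (degreeLT K f.natDegree) = f.natDegree := by
    rw [LinearEquiv.finrank_eq (degreeLTEquiv K f.natDegree), Module.finrank_fin_fun]
  omega

/-- The kernel of `h(A)` has dimension at least `deg h` if `h` is a squarefree divisor of the
characteristic polynomial. -/
theorem natDegree_le_finrank_ker [FiniteDimensional K V] (A : Module.End K V) (n : ℕ) :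
    ∀ h : K[X], h.natDegree ≤ n → Squarefree h → h ∣ A.charpoly →
      h.natDegree ≤ finrank K (LinearMap.ker (aeval A h)) := by
  induction n with
  | zero => intro h hn _ _; omega
  | succ n ih =>
    intro h hn hsq hd
    by_cases hu : IsUnit h
    · rw [natDegree_eq_zero_of_isUnit hu]; exact Nat.zero_le _
    obtain ⟨f, hf, h', rfl⟩ := WfDvdMonoid.exists_irreducible_factor hu hsq.ne_zero
    have hh'0 : h' ≠ 0 := right_ne_zero_of_mul hsq.ne_zero
    have hdeg := natDegree_mul hf.ne_zero hh'0
    have hfpos := hf.natDegree_pos
    have hcop : IsCoprime f h' := by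
      rw [hf.coprime_iff_not_dvd]
      rintro ⟨c, rfl⟩
      exact hf.not_isUnit (hsq f ⟨c, by ring⟩)
    have h1 := ih h' (by omega) (hsq.squarefree_of_dvd (Dvd.intro_left f rfl))
      ((Dvd.intro_left f rfl).trans hd)
    obtain ⟨x, hx0, hx⟩ := exists_ker_ne_zero A f hf ((Dvd.intro h' rfl).trans hd)
    have hst : ∀ y ∈ LinearMap.ker (aeval A f), A y ∈ LinearMap.ker (aeval A f) := by
      intro y hy
      rw [LinearMap.mem_ker] at hy ⊢
      have : aeval A (f * X) y = aeval A (X * f) y := by rw [mul_comm]
      rw [map_mul, map_mul, aeval_X, Module.End.mul_apply, Module.End.mul_apply, hy, map_zero] at this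
      exact this
    have h2 := natDegree_le_finrank A f hf (LinearMap.ker (aeval A f)) hst x
      (LinearMap.mem_ker.mpr hx) hx0 hx
    have h3 : LinearMap.ker (aeval A f) ⊔ LinearMap.ker (aeval A h') ≤
        LinearMap.ker (aeval A (f * h')) := by
      rw [Polynomial.sup_ker_aeval_eq_ker_aeval_mul_of_coprime A hcop]
    have h4 : Disjoint (LinearMap.ker (aeval A f)) (LinearMap.ker (aeval A h')) :=
      Polynomial.disjoint_ker_aeval_of_isCoprime A hcop
    have h5 := Submodule.finrank_mono h3
    have h6 := Submodule.finrank_sup_add_finrank_inf_eq (LinearMap.ker (aeval A f))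
      (LinearMap.ker (aeval A h'))
    rw [h4.eq_bot, finrank_bot] at h6
    omega

/-- If the characteristic polynomial is squarefree, the primary components are irreducible. -/
theorem irred_of_squarefree [FiniteDimensional K V] (A : Module.End K V)
    (hsq : Squarefree A.charpoly) (g : K[X]) (hg : Irreducible g) (U : Submodule K V)
    (hU : ∀ x ∈ U, A x ∈ U) (hUg : ∀ x ∈ U, ∃ n : ℕ, aeval A (g ^ n) x = 0) :
    U = ⊥ ∨ ∀ x, (∃ n : ℕ, aeval A (g ^ n) x = 0) → x ∈ U := by
  by_cases hgP : g ∣ A.charpoly
  · obtain ⟨h, hPh⟩ := hgP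
    have hcop : IsCoprime g h := by
      rw [hg.coprime_iff_not_dvd]
      rintro ⟨c, rfl⟩
      exact hg.not_isUnit (hsq g ⟨c, by rw [hPh]; ring⟩)
    have hker : ∀ x, (∃ n : ℕ, aeval A (g ^ n) x = 0) → aeval A g x = 0 := by
      rintro x ⟨n, hn⟩
      obtain ⟨u, v, huv⟩ := hcop.pow_left (m := n)
      have h1 : g = (u * g) * g ^ n + v * A.charpoly := by
        rw [hPh]
        calc g = g * (u * g ^ n + v * h) := by rw [huv, mul_one]
          _ = _ := by ring
      rw [h1, map_add, map_mul _ (u * g), map_mul _ v, LinearMap.aeval_self_charpoly, mul_zero,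
        add_zero, Module.End.mul_apply, hn, map_zero]
    by_cases hU0 : U = ⊥
    · exact Or.inl hU0
    · right
      obtain ⟨x, hx, hx0⟩ := Submodule.exists_mem_ne_zero_of_ne_bot hU0
      have h1 := natDegree_le_finrank A g hg U hU x hx hx0 (hker x (hUg x hx))
      have hle : U ≤ LinearMap.ker (aeval A g) := fun y hy => LinearMap.mem_ker.mpr (hker y (hUg y hy))
      have hh0 : h ≠ 0 := by
        rintro rfl
        exact (LinearMap.charpoly_monic A).ne_zero (by rw [hPh, mul_zero])
      have h2 := natDegree_le_finrank_ker A _ h le_rfl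
        (hsq.squarefree_of_dvd (Dvd.intro_left g hPh.symm)) (Dvd.intro_left g hPh.symm)
      have h4 : Disjoint (LinearMap.ker (aeval A g)) (LinearMap.ker (aeval A h)) :=
        Polynomial.disjoint_ker_aeval_of_isCoprime A hcop
      have h6 := Submodule.finrank_sup_add_finrank_inf_eq (LinearMap.ker (aeval A g))
        (LinearMap.ker (aeval A h))
      rw [h4.eq_bot, finrank_bot] at h6
      have h7 := Submodule.finrank_le (LinearMap.ker (aeval A g) ⊔ LinearMap.ker (aeval A h))
      have h8 : g.natDegree + h.natDegree = finrank K V := by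
        rw [← natDegree_mul hg.ne_zero hh0, ← hPh, LinearMap.charpoly_natDegree]
      have h9 : U = LinearMap.ker (aeval A g) :=
        Submodule.eq_of_le_of_finrank_le hle (by omega)
      intro y hy
      rw [h9, LinearMap.mem_ker]
      exact hker y hy
  · left
    rw [Submodule.eq_bot_iff]
    intro x hx
    obtain ⟨n, hn⟩ := hUg x hx
    have hcop : IsCoprime (g ^ n) A.charpoly :=
      ((hg.coprime_iff_not_dvd).mpr hgP).pow_left
    obtain ⟨u, v, huv⟩ := hcop
    have := congrArg (fun q => aeval A q x) huv
    simp only [map_add, map_mul, map_one, LinearMap.add_apply, Module.End.mul_apply, hn,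
      LinearMap.aeval_self_charpoly, mul_zero, LinearMap.zero_apply, map_zero, add_zero,
      Module.End.one_apply] at this
    exact this.symm

end Pool.Agent.B4801b
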