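import Pool.Agent.W_MP_b4801b_h67.Defs
import Pool.Agent.W_MP_b4801b_h67.Core
import Pool.Agent.W_MP_b4801b_h67.Semi
import Pool.Agent.W_MP_b4801b_h67.Avg
import Pool.Agent.W_MP_b4801b_h67.Sqf

set_option autoImplicit false

/-! The semisimplicity criterion for one prime. -/

noncomputable section

open Polynomial Module

namespace Pool.Agent.B4801b

variable {K : Type*} [Field K] {V : Type*} [AddCommGroup V] [Module K V]

/-- The right orthogonal of a subspace. -/
def perp (ψ : LinearMap.BilinForm K V) (W : Submodule K V) : Submodule K V where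
  carrier := {y | ∀ x ∈ W, ψ x y = 0}
  add_mem' := fun ha hb x hx => by rw [map_add, ha x hx, hb x hx, add_zero]
  zero_mem' := fun x _ => map_zero _
  smul_mem' := fun r y hy x hx => by rw [map_smul, hy x hx, smul_zero]

theorem isCompl_perp [FiniteDimensional K V] (ψ : LinearMap.BilinForm K V) (W : Submodule K V)
    (h : ∀ x ∈ W, x ∈ perp ψ W → x = 0) : IsCompl W (perp ψ W) := by
  have hd : Disjoint W (perp ψ W) := Submodule.disjoint_def.mpr h
  refine ⟨hd, ?_⟩
  rw [codisjoint_iff]
  -- the orthogonal is the kernel of `V → W^*`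
  let T : V →ₗ[K] Module.Dual K W := (ψ.domRestrict W).flip
  have hker : LinearMap.ker T = perp ψ W := by
    ext y
    rw [LinearMap.mem_ker]
    constructor
    · intro hy x hx
      exact LinearMap.congr_fun hy ⟨x, hx⟩
    · intro hy
      ext ⟨x, hx⟩
      exact hy x hx
  have h1 := LinearMap.finrank_range_add_finrank_ker T
  have h2 : finrank K (LinearMap.range T) ≤ finrank K W := by
    refine (Submodule.finrank_le _).trans ?_
    rw [Subspace.dual_finrank_eq]
  have h3 := Submodule.finrank_sup_add_finrank_inf_eq W (perp ψ W)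
  rw [hd.eq_bot, finrank_bot, add_zero] at h3
  rw [hker] at h1
  exact Submodule.eq_top_of_finrank_eq (le_antisymm (Submodule.finrank_le _) (by omega))

/-- The criterion: a representation with an equivariant pairing is semisimple if some element has only
self-dual irreducible factors and irreducible primary components. -/
theorem isSemisimpleRep_of_selfDual [CharZero K] [FiniteDimensional K V] {G : Type*} [Group G]
    (ρ : Representation K G V) (ψ : LinearMap.BilinForm K V)
    (hψ : Nondeg ψ) (m : G → K) (hm : Equivariant m ρ ψ)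
    (G' : Subgroup G) (hG' : G'.FiniteIndex) (E : Set (Module.End K V))
    (hcomm : CommutesWith ρ G' E) (hadj : AdjointClosed ψ E)
    (φ : G) (hφ : φ ∈ G') (c : K) (hc : c ≠ 0) (hφc : ∀ x y, ψ (ρ φ x) (ρ φ y) = c * ψ x y)
    (hdual : ∀ g : K[X], Irreducible g → g ∣ (ρ φ).charpoly → SelfDualPoly c g)
    (hirr : IrredPrimary (ρ φ) E) :
    IsSemisimpleRep ρ := by
  intro W hW
  refine exists_compl_of_finiteIndex ρ G' W hW ?_
  let T : Set (Module.End K V) := {t | ∃ σ ∈ G', t = ρ σ}
  obtain ⟨W', hW', hc'⟩ := semisimple_of_comm T E (by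
      rintro e he _ ⟨σ, hσ, rfl⟩ x
      exact hcomm e he σ hσ x) (by
      intro N hNT hNE
      have hperpT : Stable T (perp ψ N) := by
        rintro _ ⟨σ, hσ, rfl⟩ y hy x hx
        have h1 : ρ σ (ρ σ⁻¹ x) = x := by
          rw [← Module.End.mul_apply, ← map_mul, mul_inv_cancel, map_one, Module.End.one_apply]
        have h2 : ψ (ρ σ⁻¹ x) y = 0 := hy _ (hNT _ ⟨σ⁻¹, G'.inv_mem hσ, rfl⟩ x hx)
        have h3 := hm σ (ρ σ⁻¹ x) y
        rw [h1, h2] at h3
        rcases mul_eq_zero.mp h3 with h | h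
        · have : ∀ x y, ψ x y = 0 := fun x y => by rw [← hm σ x y, h, zero_mul]
          exact this _ _
        · exact h
      have hperpE : Stable E (perp ψ N) := by
        intro e he y hy x hx
        obtain ⟨e', he', hee'⟩ := hadj e he
        rw [hee']
        exact hy _ (hNE e' he' x hx)
      refine ⟨perp ψ N, hperpT, isCompl_perp ψ N ?_⟩
      have hI : N ⊓ perp ψ N = ⊥ := by
        refine eq_bot_of_isotropic ψ hψ (ρ φ) c hc hφc E hdual
          (fun g hg U h1 h2 h3 => hirr g hg U h1 h2 h3)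
          (fun e he x => hcomm e he φ hφ x) _ ?_ ?_ ?_
        · rintro x ⟨h1, h2⟩
          exact ⟨hNT _ ⟨φ, hφ, rfl⟩ x h1, hperpT _ ⟨φ, hφ, rfl⟩ x h2⟩
        · rintro e he x ⟨h1, h2⟩
          exact ⟨hNE e he x h1, hperpE e he x h2⟩
        · rintro x ⟨h1, _⟩ y ⟨_, h2⟩
          exact h2 x h1
      intro x hx hx'
      exact (Submodule.mem_bot K).mp (hI ▸ ⟨hx, hx'⟩)) W (by
      rintro _ ⟨σ, hσ, rfl⟩ x hx
      exact hW σ x hx)
  exact ⟨W', fun σ hσ x hx => hW' _ ⟨σ, hσ, rfl⟩ x hx, hc'⟩

end Pool.Agent.B4801b
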