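import Pool.Agent.W_MP_b4801b_h67.Defs
import Pool.Agent.W_MP_b4801b_h67.Core
import Pool.Agent.W_MP_b4801b_h67.Main

set_option autoImplicit false

/-! The eigenvalues of a similitude on a totally isotropic stable subspace. -/

noncomputable section

open Polynomial Module

namespace Pool.Agent.B4801b

section

variable {K : Type*} [Field K] {V U : Type*} [AddCommGroup V] [Module K V] [AddCommGroup U] [Module K U]

theorem charpoly_mul [Infinite K] [FiniteDimensional K V] (W : Submodule K V) (A : Module.End K V)
    (he : ∀ x ∈ W, A x ∈ W) :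
    A.charpoly = (A.restrict he).charpoly * LinearMap.charpoly (W.mapQ W A he) := by
  apply Polynomial.funext
  intro t
  rw [eval_mul, LinearMap.eval_charpoly, LinearMap.eval_charpoly, LinearMap.eval_charpoly]
  have h1 : W ≤ W.comap (algebraMap K (Module.End K V) t - A) := by
    intro x hx
    exact W.sub_mem (W.smul_mem t hx) (he x hx)
  rw [LinearMap.det_eq_det_mul_det W _ h1]
  congr 2
  apply LinearMap.ext
  intro x
  obtain ⟨x, rfl⟩ := W.mkQ_surjective x
  rfl

theorem charpoly_dvd_of_injective [Infinite K] [FiniteDimensional K V] [FiniteDimensional K U]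
    (j : U →ₗ[K] V) (hj : Function.Injective j) (B : Module.End K U) (A : Module.End K V)
    (h : ∀ x, j (B x) = A (j x)) : B.charpoly ∣ A.charpoly := by
  have he : ∀ x ∈ LinearMap.range j, A x ∈ LinearMap.range j := by
    rintro _ ⟨x, rfl⟩
    exact ⟨B x, h x⟩
  suffices hs : B.charpoly = (A.restrict he).charpoly by
    rw [charpoly_mul (LinearMap.range j) A he, hs]
    exact dvd_mul_right _ _
  rw [← LinearEquiv.charpoly_conj (LinearEquiv.ofInjective j hj) B]
  congr 1
  apply LinearMap.ext
  rintro ⟨_, x, rfl⟩
  apply Subtype.ext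
  rw [LinearEquiv.conj_apply_apply]
  have h1 : (LinearEquiv.ofInjective j hj).symm ⟨j x, x, rfl⟩ = x := by
    rw [LinearEquiv.symm_apply_eq]
    rfl
  rw [h1, LinearEquiv.ofInjective_apply, h]
  rfl

theorem charpoly_of_surjective [Infinite K] [FiniteDimensional K V] [FiniteDimensional K U]
    (T : V →ₗ[K] U) (hT : Function.Surjective T) (A : Module.End K V) (A' : Module.End K U)
    (h : ∀ x, T (A x) = A' (T x)) (he : ∀ x ∈ LinearMap.ker T, A x ∈ LinearMap.ker T) :
    A.charpoly = (A.restrict he).charpoly * A'.charpoly := by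
  rw [charpoly_mul (LinearMap.ker T) A he]
  congr 1
  rw [← LinearEquiv.charpoly_conj (T.quotKerEquivOfSurjective hT)]
  congr 1
  apply LinearMap.ext
  intro y
  obtain ⟨x, rfl⟩ := hT y
  rw [LinearEquiv.conj_apply_apply]
  have h1 : (T.quotKerEquivOfSurjective hT).symm (T x) = (LinearMap.ker T).mkQ x := by
    rw [LinearEquiv.symm_apply_eq]
    rfl
  rw [h1, ← h]
  rfl

theorem charpoly_map_eq_prod (L : Type*) [Field L] [IsAlgClosed L] [Algebra K L]
    [FiniteDimensional K U] (B : Module.End K U) :
    B.charpoly.map (algebraMap K L) =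
      ((B.charpoly.aroots L).map fun a => X - C a).prod := by
  have h := (IsAlgClosed.splits (B.charpoly.map (algebraMap K L))).eq_prod_roots_of_monic
    ((LinearMap.charpoly_monic B).map _)
  exact h

theorem card_aroots (L : Type*) [Field L] [IsAlgClosed L] [Algebra K L]
    [FiniteDimensional K U] (B : Module.End K U) :
    Multiset.card (B.charpoly.aroots L) = finrank K U := by
  have h := (IsAlgClosed.splits (B.charpoly.map (algebraMap K L))).natDegree_eq_card_roots
  rw [Polynomial.natDegree_map, LinearMap.charpoly_natDegree] at h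
  exact h.symm

theorem prod_aroots (L : Type*) [Field L] [IsAlgClosed L] [Algebra K L]
    [FiniteDimensional K U] (B : Module.End K U) :
    (B.charpoly.aroots L).prod = algebraMap K L (LinearMap.det B) := by
  have h := congrArg (Polynomial.eval 0) (charpoly_map_eq_prod L B)
  rw [Polynomial.eval_multiset_prod, Multiset.map_map] at h
  have h1 : ((B.charpoly.aroots L).map ((fun p => eval 0 p) ∘ fun a => X - C a)).prod =
      (-1) ^ (finrank K U) * (B.charpoly.aroots L).prod := by
    rw [← card_aroots L B, ← Multiset.prod_map_neg]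
    congr 1
    apply Multiset.map_congr rfl
    intro a _
    simp
  rw [h1, ← map_zero (algebraMap K L), Polynomial.eval_map_algebraMap,
    Polynomial.aeval_algebraMap_apply_eq_algebraMap_eval, LinearMap.eval_charpoly, map_zero,
    zero_sub, ← neg_one_smul K B, LinearMap.det_smul, map_mul, map_pow, map_neg, map_one] at h
  exact (mul_left_cancel₀ (pow_ne_zero _ (neg_ne_zero.mpr one_ne_zero)) h).symm

/-- The transport of an operator `A` of similitude ratio `c` to the dual of an isotropic subspace. -/
theorem charpoly_dual_map (L : Type*) [Field L] [IsAlgClosed L] [Algebra K L] [Infinite K]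
    [FiniteDimensional K U] (B : U ≃ₗ[K] U) (c : K) :
    (LinearMap.charpoly (c • (B.symm : U →ₗ[K] U).dualMap)).map (algebraMap K L) =
      (((B : U →ₗ[K] U).charpoly.aroots L).map fun a => X - C (algebraMap K L c / a)).prod := by
  set S := (B : U →ₗ[K] U).charpoly.aroots L with hS
  have hprod : S.prod = algebraMap K L (LinearMap.det (B : U →ₗ[K] U)) := prod_aroots L _
  have hdet : LinearMap.det (B : U →ₗ[K] U) ≠ 0 := by
    have := B.isUnit_det'
    exact this.ne_zero
  have h0 : ∀ a ∈ S, a ≠ 0 := by
    rintro a ha rfl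
    apply hdet
    have h1 : S.prod = 0 := Multiset.prod_eq_zero ha
    rw [hprod] at h1
    exact (map_eq_zero _).mp h1
  apply Polynomial.eq_of_infinite_eval_eq
  have hinf : Set.Infinite ((algebraMap K L) '' {t : K | t ≠ 0}) := by
    apply Set.Infinite.image ((algebraMap K L).injective.injOn)
    exact Set.Finite.infinite_compl (Set.finite_singleton (0 : K))
  refine hinf.mono ?_
  rintro _ ⟨t, ht, rfl⟩
  have ht' : algebraMap K L t ≠ 0 := by simpa using ht
  show Polynomial.eval _ _ = Polynomial.eval _ _
  rw [Polynomial.eval_map_algebraMap, Polynomial.aeval_algebraMap_apply_eq_algebraMap_eval,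
    LinearMap.eval_charpoly, Polynomial.eval_multiset_prod, Multiset.map_map]
  -- the determinant of the dual
  have h1 : algebraMap K (Module.End K (Module.Dual K U)) t - c • (B.symm : U →ₗ[K] U).dualMap =
      (algebraMap K (Module.End K U) t - c • (B.symm : U →ₗ[K] U)).dualMap := by
    apply LinearMap.ext
    intro f
    apply LinearMap.ext
    intro x
    simp [LinearMap.dualMap_apply, Module.algebraMap_end_apply]
  rw [h1, LinearMap.det_dualMap]
  have h2 : LinearMap.det (B : U →ₗ[K] U) *
      LinearMap.det (algebraMap K (Module.End K U) t - c • (B.symm : U →ₗ[K] U)) =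
      (-t) ^ finrank K U * (LinearMap.charpoly (B : U →ₗ[K] U)).eval (c / t) := by
    rw [LinearMap.eval_charpoly, ← LinearMap.det_smul, ← LinearMap.det_comp]
    congr 1
    apply LinearMap.ext
    intro x
    have ht0 : t ≠ 0 := ht
    show B ((t • x) - c • B.symm x) = (-t) • ((c / t) • x - B x)
    rw [map_sub, map_smul, map_smul, LinearEquiv.apply_symm_apply, smul_sub, smul_smul, neg_mul,
      mul_div_cancel₀ _ ht0, neg_smul, neg_smul]
    abel
  have h3 := congrArg (algebraMap K L) h2
  rw [map_mul, map_mul, ← hprod, ← Polynomial.aeval_algebraMap_apply_eq_algebraMap_eval,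
    ← Polynomial.eval_map_algebraMap, charpoly_map_eq_prod L, ← hS, Polynomial.eval_multiset_prod,
    Multiset.map_map, map_pow, map_neg, map_div₀, ← card_aroots L, ← hS,
    ← Multiset.prod_replicate, ← Multiset.map_const', ← Multiset.prod_map_mul] at h3
  have h4 : S.prod * (S.map ((fun p => eval ((algebraMap K L) t) p) ∘
      fun a => X - C (algebraMap K L c / a))).prod =
      (S.map fun a => -(algebraMap K L t) * ((fun p => eval ((algebraMap K L) c / (algebraMap K L) t) p) ∘
        fun a => X - C a) a).prod := by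
    have h5 := Multiset.prod_map_mul (m := S) (f := fun a => a)
      (g := (fun p => eval ((algebraMap K L) t) p) ∘ fun a => X - C (algebraMap K L c / a))
    rw [Multiset.map_id'] at h5
    rw [← h5]
    congr 1
    apply Multiset.map_congr rfl
    intro a ha
    have ha0 := h0 a ha
    simp only [Function.comp_apply, eval_sub, eval_X, eval_C]
    field_simp
    ring
  rw [← h4] at h3
  exact mul_left_cancel₀ (by rw [hprod]; simpa using hdet) h3

/-- The polynomial `X^d f(c / X)` for the characteristic polynomial `f` of `B`. -/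
theorem star_charpoly [Infinite K] [FiniteDimensional K U] (B : U ≃ₗ[K] U) (c : K) :
    star c (LinearMap.charpoly (B : U →ₗ[K] U)).natDegree (LinearMap.charpoly (B : U →ₗ[K] U)) =
      C ((-1) ^ finrank K U * LinearMap.det (B : U →ₗ[K] U)) *
        LinearMap.charpoly (c • (B.symm : U →ₗ[K] U).dualMap) := by
  apply Polynomial.eq_of_infinite_eval_eq
  have hinf : Set.Infinite {t : K | t ≠ 0} := Set.Finite.infinite_compl (Set.finite_singleton (0 : K))
  refine hinf.mono ?_
  intro t ht
  have ht0 : t ≠ 0 := ht
  show Polynomial.eval _ _ = Polynomial.eval _ _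
  have h0 := star_eval (L := K) c _ (LinearMap.charpoly (B : U →ₗ[K] U)) le_rfl t ht0
  rw [Algebra.algebraMap_self_apply, Polynomial.coe_aeval_eq_eval] at h0
  rw [h0, LinearMap.charpoly_natDegree, eval_mul, eval_C, LinearMap.eval_charpoly]
  have h1 : algebraMap K (Module.End K (Module.Dual K U)) t - c • (B.symm : U →ₗ[K] U).dualMap =
      (algebraMap K (Module.End K U) t - c • (B.symm : U →ₗ[K] U)).dualMap := by
    apply LinearMap.ext
    intro f
    apply LinearMap.ext
    intro x
    simp [LinearMap.dualMap_apply, Module.algebraMap_end_apply]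
  have h2 : LinearMap.det (B : U →ₗ[K] U) *
      LinearMap.det (algebraMap K (Module.End K U) t - c • (B.symm : U →ₗ[K] U)) =
      (-t) ^ finrank K U * (LinearMap.charpoly (B : U →ₗ[K] U)).eval (c / t) := by
    rw [LinearMap.eval_charpoly, ← LinearMap.det_smul, ← LinearMap.det_comp]
    congr 1
    apply LinearMap.ext
    intro x
    show B ((t • x) - c • B.symm x) = (-t) • ((c / t) • x - B x)
    rw [map_sub, map_smul, map_smul, LinearEquiv.apply_symm_apply, smul_sub, smul_smul, neg_mul,
      mul_div_cancel₀ _ ht0, neg_smul, neg_smul]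
    abel
  have h5 : LinearMap.det (algebraMap K (Module.End K (Module.Dual K U)) t -
      c • (B.symm : U →ₗ[K] U).dualMap) =
      LinearMap.det (algebraMap K (Module.End K U) t - c • (B.symm : U →ₗ[K] U)) := by
    rw [h1, LinearMap.det_dualMap]
  refine Eq.trans ?_ (congrArg (fun z => (-1) ^ finrank K U * LinearMap.det (B : U →ₗ[K] U) * z)
    h5).symm
  show _ = (-1) ^ finrank K U * LinearMap.det (B : U →ₗ[K] U) * _
  rw [mul_assoc, h2, ← mul_assoc, ← mul_pow, neg_one_mul, neg_neg, Polynomial.coe_aeval_eq_eval]

/-- The characteristic polynomial `g` of a similitude `A` of ratio `c` on an isotropic stable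
subspace `W`: `g(X) X^d g(c / X)` divides the characteristic polynomial of `A`. -/
theorem charpoly_isotropic [Infinite K] [FiniteDimensional K V]
    (ψ : LinearMap.BilinForm K V) (hψ : Nondeg ψ) (A : Module.End K V) (c : K) (hc : c ≠ 0)
    (hA : ∀ x y, ψ (A x) (A y) = c * ψ x y) (W : Submodule K V) (hW : ∀ x ∈ W, A x ∈ W)
    (hI : ∀ x ∈ W, ∀ y ∈ W, ψ x y = 0) :
    ∃ B : W ≃ₗ[K] W, (B : W →ₗ[K] W) = A.restrict hW ∧
      (A.restrict hW).charpoly * LinearMap.charpoly (c • (B.symm : W →ₗ[K] W).dualMap) ∣
        A.charpoly := by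
  have hinj : ∀ x, A x = 0 → x = 0 := by
    intro x hx
    apply hψ
    intro y
    have := hA x y
    rw [hx, map_zero, LinearMap.zero_apply] at this
    exact (mul_eq_zero.mp this.symm).resolve_left hc
  have hBinj : Function.Injective (A.restrict hW) := by
    rw [injective_iff_map_eq_zero]
    intro x hx
    apply Subtype.ext
    apply hinj
    exact congrArg Subtype.val hx
  let B : W ≃ₗ[K] W := LinearEquiv.ofInjectiveEndo (A.restrict hW) hBinj
  have hB : (B : W →ₗ[K] W) = A.restrict hW := by
    apply LinearMap.ext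
    intro x
    rfl
  let T : V →ₗ[K] Module.Dual K W := (ψ.domRestrict W).flip
  have hTapp : ∀ (y : V) (x : W), T y x = ψ x y := fun y x => rfl
  have hT : Function.Surjective T := by
    rw [← LinearMap.dualMap_injective_iff, injective_iff_map_eq_zero]
    intro f hf
    obtain ⟨x, rfl⟩ := (Module.evalEquiv K W).surjective f
    have hx : (x : V) = 0 := by
      apply hψ
      intro y
      have := LinearMap.congr_fun hf y
      rw [LinearMap.dualMap_apply, Module.evalEquiv_apply] at this
      exact this
    have hx' : x = 0 := Subtype.ext hx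
    rw [hx', map_zero]
  have hTA : ∀ y, T (A y) = (c • (B.symm : W →ₗ[K] W).dualMap) (T y) := by
    intro y
    apply LinearMap.ext
    intro x
    rw [hTapp, LinearMap.smul_apply, LinearMap.smul_apply, LinearMap.dualMap_apply, hTapp]
    have h1 : A ((B.symm x : W) : V) = x := by
      have := congrArg Subtype.val (B.apply_symm_apply x)
      exact this
    conv_lhs => rw [← h1]
    rw [hA]
    rfl
  have hker : ∀ x ∈ LinearMap.ker T, A x ∈ LinearMap.ker T := by
    intro x hx
    rw [LinearMap.mem_ker] at hx ⊢
    rw [hTA, hx, map_zero]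
  have h1 := charpoly_of_surjective T hT A _ hTA hker
  have hWk : W ≤ LinearMap.ker T := by
    intro y hy
    rw [LinearMap.mem_ker]
    apply LinearMap.ext
    intro x
    rw [hTapp, LinearMap.zero_apply]
    exact hI x x.2 y hy
  have h2 : (A.restrict hW).charpoly ∣ (A.restrict hker).charpoly :=
    charpoly_dvd_of_injective (Submodule.inclusion hWk) (Submodule.inclusion_injective hWk) _ _
      (fun x => rfl)
  refine ⟨B, hB, ?_⟩
  rw [h1]
  exact mul_dvd_mul_right h2 _

/-- The eigenvalues of a similitude `A` of ratio `c` on an isotropic stable subspace `W`. -/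
theorem exists_relation (L : Type*) [Field L] [IsAlgClosed L] [Algebra K L] [Infinite K]
    [FiniteDimensional K V]
    (ψ : LinearMap.BilinForm K V) (hψ : Nondeg ψ) (A : Module.End K V) (c : K) (hc : c ≠ 0)
    (hA : ∀ x y, ψ (A x) (A y) = c * ψ x y) (W : Submodule K V) (hW : ∀ x ∈ W, A x ∈ W)
    (hI : ∀ x ∈ W, ∀ y ∈ W, ψ x y = 0) :
    ∃ S : Multiset L, Multiset.card S = finrank K W ∧
      S.prod = algebraMap K L (LinearMap.det (A.restrict hW)) ∧
      S + S.map (fun a => algebraMap K L c / a) ≤ A.charpoly.aroots L := by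
  obtain ⟨B, hB, h3⟩ := charpoly_isotropic ψ hψ A c hc hA W hW hI
  refine ⟨(A.restrict hW).charpoly.aroots L, card_aroots L _, prod_aroots L _, ?_⟩
  have h4 := Polynomial.map_dvd (algebraMap K L) h3
  rw [Polynomial.map_mul, charpoly_dual_map L B c, hB, charpoly_map_eq_prod L (A.restrict hW),
    ← Multiset.prod_add] at h4
  have h5 := Polynomial.roots.le_of_dvd ((LinearMap.charpoly_monic A).map (algebraMap K L)).ne_zero h4
  refine le_trans (le_of_eq ?_) h5
  have h6 : ((A.restrict hW).charpoly.aroots L).map (fun a => X - C (algebraMap K L c / a)) =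
      (((A.restrict hW).charpoly.aroots L).map (fun a => algebraMap K L c / a)).map
        (fun a => X - C a) := by
    rw [Multiset.map_map]
    rfl
  rw [h6, ← Multiset.map_add, Polynomial.roots_multiset_prod_X_sub_C]

/-- The characteristic polynomial `g` of a similitude `A` of ratio `c` on an isotropic stable
subspace `W`: `g(X) X^d g(c / X)` divides the characteristic polynomial of `A`. -/
theorem exists_factor [Infinite K] [FiniteDimensional K V]
    (ψ : LinearMap.BilinForm K V) (hψ : Nondeg ψ) (A : Module.End K V) (c : K) (hc : c ≠ 0)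
    (hA : ∀ x y, ψ (A x) (A y) = c * ψ x y) (W : Submodule K V) (hW : ∀ x ∈ W, A x ∈ W)
    (hI : ∀ x ∈ W, ∀ y ∈ W, ψ x y = 0) :
    ∃ g : K[X], g.Monic ∧ g.natDegree = finrank K W ∧
      (-1) ^ g.natDegree * g.coeff 0 = LinearMap.det (A.restrict hW) ∧
      g * star c g.natDegree g ∣ A.charpoly := by
  obtain ⟨B, hB, h3⟩ := charpoly_isotropic ψ hψ A c hc hA W hW hI
  refine ⟨(A.restrict hW).charpoly, LinearMap.charpoly_monic _, LinearMap.charpoly_natDegree _,
    ?_, ?_⟩
  · rw [LinearMap.charpoly_natDegree, ← LinearMap.det_eq_sign_charpoly_coeff]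
  · refine dvd_trans (mul_dvd_mul_left _ ?_) h3
    have h4 := star_charpoly B c
    have hdet : LinearMap.det (B : W →ₗ[K] W) ≠ 0 := B.isUnit_det'.ne_zero
    rw [hB] at h4 hdet
    rw [h4]
    have hu : IsUnit (C ((-1) ^ finrank K W * LinearMap.det (A.restrict hW)) : K[X]) := by
      rw [Polynomial.isUnit_C]
      exact (mul_ne_zero (pow_ne_zero _ (neg_ne_zero.mpr one_ne_zero)) hdet).isUnit
    exact (hu.mul_left_dvd).mpr dvd_rfl

end

end Pool.Agent.B4801b
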