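import Mathlib

set_option autoImplicit false

/-!
# Polarized pure compatible systems of `ℓ`-adic Galois representations

Definitions for `MP_b4801b_ag` (semisimplicity of the Galois action on `ℓ`-adic cohomology).
-/

noncomputable section

open Polynomial

universe u v

namespace Pool.Agent.B4801b

section Generic

variable {K : Type*} [Field K] {V : Type*} [AddCommGroup V] [Module K V] {G : Type*} [Group G]

/-- The pairing `ψ` is nondegenerate: `ψ x y = 0` for all `y` only for `x = 0`. -/
def Nondeg (ψ : LinearMap.BilinForm K V) : Prop :=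
  ∀ x : V, (∀ y, ψ x y = 0) → x = 0

/-- The pairing `ψ` is equivariant with multiplier `m⁻¹`: `m(σ) ψ(σ x, σ y) = ψ(x, y)`. -/
def Equivariant (m : G → K) (ρ : Representation K G V) (ψ : LinearMap.BilinForm K V) : Prop :=
  ∀ (σ : G) (x y : V), m σ * ψ (ρ σ x) (ρ σ y) = ψ x y

/-- The representation `ρ` is continuous: its matrix coefficients are continuous. -/
def IsContinuousRep [TopologicalSpace K] [TopologicalSpace G] (ρ : Representation K G V) : Prop :=
  ∀ (f : Module.Dual K V) (x : V), Continuous fun σ : G => f (ρ σ x)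

/-- The representation `ρ` of the group `G` is semisimple: every `G`-stable subspace has a `G`-stable
complement. -/
def IsSemisimpleRep (ρ : Representation K G V) : Prop :=
  ∀ W : Submodule K V, (∀ (σ : G), ∀ x ∈ W, ρ σ x ∈ W) →
    ∃ W' : Submodule K V, (∀ (σ : G), ∀ x ∈ W', ρ σ x ∈ W') ∧ IsCompl W W'

/-- The set `E` of endomorphisms of `V` commutes with the operators `ρ(σ)`, `σ ∈ Γ`. -/
def CommutesWith (ρ : Representation K G V) (Γ : Subgroup G) (E : Set (Module.End K V)) : Prop :=
  ∀ e ∈ E, ∀ σ ∈ Γ, ∀ x, e (ρ σ x) = ρ σ (e x)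

/-- The set `E` of endomorphisms of `V` is closed under adjoints with respect to `ψ`. -/
def AdjointClosed (ψ : LinearMap.BilinForm K V) (E : Set (Module.End K V)) : Prop :=
  ∀ e ∈ E, ∃ e' ∈ E, ∀ x y, ψ x (e y) = ψ (e' x) y

/-- The `g`-primary component of the operator `A`. -/
def primary (A : Module.End K V) (g : K[X]) : Set V :=
  {x | ∃ n : ℕ, aeval A (g ^ n) x = 0}

/-- The primary components of the operator `A` are irreducible under `A` and `E`: for every irreducible
polynomial `g`, a subspace of the `g`-primary component which is stable under `A` and `E` is zero or the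
whole component. -/
def IrredPrimary (A : Module.End K V) (E : Set (Module.End K V)) : Prop :=
  ∀ g : K[X], Irreducible g → ∀ U : Submodule K V, (∀ x ∈ U, A x ∈ U) →
    (∀ e ∈ E, ∀ x ∈ U, e x ∈ U) → (U : Set V) ⊆ primary A g → U = ⊥ ∨ primary A g ⊆ U

/-- The roots of the polynomial `g` (in an algebraic closure) are permuted by `α ↦ c / α`. -/
def SelfDualPoly (c : K) (g : K[X]) : Prop :=
  ∀ α : AlgebraicClosure K, aeval α g = 0 → aeval (algebraMap K (AlgebraicClosure K) c / α) g = 0

end Generic

/-- The absolute Galois group `Gal(k̄ / k)`. -/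
abbrev Gal (k : Type u) [Field k] : Type u := AlgebraicClosure k ≃ₐ[k] AlgebraicClosure k

/-- The `ℓ`-adic cyclotomic character of `Gal(k̄ / k)`, with values in `ℚ_ℓ`. -/
def cyc (k : Type u) [Field k] (ℓ : ℕ) [Fact ℓ.Prime] (σ : Gal k) : ℚ_[ℓ] :=
  ((cyclotomicCharacter (AlgebraicClosure k) ℓ σ.toRingEquiv : ℤ_[ℓ]ˣ) : ℤ_[ℓ])

/-- A polarized `ℓ`-adic representation of weight `w` of the absolute Galois group of `k`: a finite
dimensional continuous representation on a `ℚ_ℓ`-vector space `V`, with a nondegenerate pairing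
`ψ : V × V → ℚ_ℓ(-w)` compatible with the Galois action: `χ_ℓ(σ) ^ w ψ(σ x, σ y) = ψ(x, y)`. -/
structure PolRep (k : Type u) [Field k] (w ℓ : ℕ) [Fact ℓ.Prime] where
  /-- the representation space -/
  V : Type v
  [grp : AddCommGroup V]
  [mod : Module ℚ_[ℓ] V]
  [fin : FiniteDimensional ℚ_[ℓ] V]
  /-- the Galois action -/
  ρ : Representation ℚ_[ℓ] (Gal k) V
  continuous : IsContinuousRep ρ
  /-- the pairing -/
  ψ : LinearMap.BilinForm ℚ_[ℓ] V
  nondeg : Nondeg ψ
  equivariant : Equivariant (fun σ => cyc k ℓ σ ^ w) ρ ψ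

attribute [instance] PolRep.grp PolRep.mod PolRep.fin

section

variable {k : Type u} [Field k] {w ℓ : ℕ} [Fact ℓ.Prime]

/-- Every Galois-stable subspace of `V` has a Galois-stable complement. -/
def PolRep.Semisimple (S : PolRep.{u, v} k w ℓ) : Prop := IsSemisimpleRep S.ρ

/-- The characteristic polynomial of `φ` on `V` is the polynomial `P` with rational coefficients. -/
def PolRep.HasCharpoly (S : PolRep.{u, v} k w ℓ) (φ : Gal k) (P : ℚ[X]) : Prop :=
  (S.ρ φ).charpoly = P.map (algebraMap ℚ ℚ_[ℓ])

/-- Correspondences on a polarized representation: a set `E` of endomorphisms of `V` which commute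
with a subgroup `Γ` of finite index of the Galois group, closed under adjoints with respect to the
pairing.  (For `H^w(X)`: the algebraic correspondences on `X ×_k k̄`; or no endomorphism at all.) -/
structure Corr (S : PolRep.{u, v} k w ℓ) where
  /-- the subgroup of the Galois group -/
  Γ : Subgroup (Gal k)
  finiteIndex : Γ.FiniteIndex
  /-- the endomorphisms of `V` -/
  E : Set (Module.End ℚ_[ℓ] S.V)
  comm : CommutesWith S.ρ Γ E
  adj : AdjointClosed S.ψ E

/-- There are correspondences on `V` such that `φ` lies in `Γ` and the primary components of `φ` are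
irreducible under `φ` and the correspondences. -/
def PolRep.IrredAt (S : PolRep.{u, v} k w ℓ) (φ : Gal k) : Prop :=
  ∃ C : Corr S, φ ∈ C.Γ ∧ IrredPrimary (S.ρ φ) C.E

end

/-- The data of a place of a field `k`: an element `frob` of the absolute Galois group (the geometric
Frobenius element), a number `p` (the residue characteristic) and a number `q` (the number of elements
of the residue field) such that `χ_ℓ(frob) = q⁻¹` for all primes `ℓ ≠ p`. -/
structure Place (k : Type u) [Field k] where
  /-- the geometric Frobenius element -/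
  frob : Gal k
  /-- the residue characteristic -/
  p : ℕ
  /-- the number of elements of the residue field -/
  q : ℕ
  cyc_frob : ∀ (ℓ : ℕ) [Fact ℓ.Prime], ℓ ≠ p → cyc k ℓ frob * q = 1

/-- A polarized pure `ℚ`-rational compatible system of weight `w` over the field `k`:
for every prime `ℓ` a polarized `ℓ`-adic representation `V_ℓ` of weight `w`, and a set `Pl` of places such
that for every `v ∈ Pl` the characteristic polynomial of the Frobenius element of `v` on `V_ℓ` is, for all
`ℓ ≠ p_v`, the same polynomial `P_v` with rational coefficients, all of whose complex roots have absolute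
value `q_v ^ (w / 2)`.

For a smooth projective variety `X` over a finitely generated field `k` of characteristic zero the
étale cohomology groups `H^w(X ×_k k̄, ℚ_ℓ)` form such a system (Poincaré duality and hard Lefschetz;
Deligne), for the places of good reduction. -/
structure CompSys (k : Type u) [Field k] (w : ℕ) where
  /-- the polarized representation `V_ℓ` -/
  rep : ∀ (ℓ : ℕ) [Fact ℓ.Prime], PolRep.{u, v} k w ℓ
  /-- the places -/
  Pl : Set (Place k)
  /-- the characteristic polynomial of Frobenius -/
  P : Place k → ℚ[X]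
  charpoly_frob : ∀ v ∈ Pl, ∀ (ℓ : ℕ) [Fact ℓ.Prime], ℓ ≠ v.p → (rep ℓ).HasCharpoly v.frob (P v)
  pure : ∀ v ∈ Pl, ∀ z : ℂ, aeval z (P v) = 0 → ‖z‖ ^ 2 = (v.q : ℝ) ^ w

/-- The primes `ℓ` such that for every irreducible factor `g` of `P` over `ℚ_ℓ` the roots of `g` are
permuted by `α ↦ c / α`. -/
def dualPrimes (P : ℚ[X]) (c : ℚ) : Set ℕ :=
  {ℓ | ∃ h : ℓ.Prime, haveI : Fact ℓ.Prime := ⟨h⟩
    ∀ g : ℚ_[ℓ][X], Irreducible g → g ∣ P.map (algebraMap ℚ ℚ_[ℓ]) →
      SelfDualPoly (algebraMap ℚ ℚ_[ℓ] c) g}

/-- The primes `ℓ` such that the roots of every irreducible factor of `P_v` over `ℚ_ℓ` are permuted by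
`α ↦ q_v ^ w / α`. -/
def CompSys.dualPrimes {k : Type u} [Field k] {w : ℕ} (S : CompSys.{u, v} k w) (x : Place k) : Set ℕ :=
  B4801b.dualPrimes (S.P x) ((x.q : ℚ) ^ w)

end Pool.Agent.B4801b
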