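import Pool.Agent.W_MP_b4801b_h67.Defs
import Pool.Agent.W_MP_b4801b_h67.Core

set_option autoImplicit false

/-!
# Compatible systems whose determinants are algebraic over a number field

Definitions for the second criterion of `MP_b4801b_ag`.
-/

noncomputable section

open Polynomial

universe u v

namespace Pool.Agent.B4801b

/-- `z` is an algebraic number all of whose conjugates lie in `F` (for `F / ℚ` normal: `z` lies in
`F`; for `F = ℚ`: `z` is rational). -/
def AlgIn (F : Type*) [Field F] [Algebra ℚ F] {L : Type*} [Field L] [Algebra ℚ L] (z : L) : Prop :=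
  ∃ g : ℚ[X], g ≠ 0 ∧ (g.map (algebraMap ℚ F)).Splits ∧ aeval z g = 0

section Generic

variable {K : Type*} [Field K] {V : Type*} [AddCommGroup V] [Module K V] {G : Type*} [Group G]

/-- The subspace `W` is stable under the operators `ρ(σ)`. -/
def IsStable (ρ : Representation K G V) (W : Submodule K V) : Prop :=
  ∀ (σ : G), ∀ x ∈ W, ρ σ x ∈ W

/-- The operator `ρ(σ)` on the stable subspace `W`. -/
def subOp (ρ : Representation K G V) (W : Submodule K V) (hW : IsStable ρ W) (σ : G) : W →ₗ[K] W :=
  (ρ σ).restrict (hW σ)

/-- The determinant of an endomorphism. -/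
def detEnd (f : V →ₗ[K] V) : K := LinearMap.det f

/-- The determinant of `ρ(σ)` on the stable subspace `W`. -/
def detOn (ρ : Representation K G V) (W : Submodule K V) (hW : IsStable ρ W) (σ : G) : K :=
  detEnd (subOp ρ W hW σ)

/-- For every stable subspace `W` there is `N > 0` such that `det(ρ(φ) | W) ^ N` lies in `F` for all
elements `φ` of the set `Φ`. -/
def DetAlg (ρ : Representation K G V) [Algebra ℚ K] (F : Type*) [Field F] [Algebra ℚ F]
    (Φ : Set G) : Prop :=
  ∀ (W : Submodule K V) (hW : IsStable ρ W), ∃ N : ℕ, 0 < N ∧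
    ∀ φ ∈ Φ, AlgIn F (detOn ρ W hW φ ^ N)

end Generic

/-- The Frobenius elements of the places of the system which do not divide `ℓ`. -/
def CompSys.frobs {k : Type u} [Field k] {w : ℕ} (S : CompSys.{u, v} k w) (ℓ : ℕ) : Set (Gal k) :=
  {φ | ∃ x ∈ S.Pl, ℓ ≠ x.p ∧ φ = x.frob}

/-- A polarized pure `ℚ`-rational compatible system over `k` whose determinants are algebraic with
values in `F`.  For a smooth projective variety `X` over a number field `k` the étale cohomology
groups `H^w(X ×_k k̄, ℚ_ℓ)` form such a system, `F` being the Galois closure of `k` over `ℚ` (or only of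
the largest CM field contained in `k`; `F = ℚ` if `k` contains no CM field): the determinant of a
Galois-stable subspace is a Hodge-Tate character (Faltings), hence given by an algebraic Hecke
character (Tate, Serre). -/
structure AlgCompSys (k : Type u) [Field k] (w : ℕ) (F : Type*) [Field F] [Algebra ℚ F] extends
    CompSys.{u, v} k w where
  det_alg : ∀ (ℓ : ℕ) [Fact ℓ.Prime], DetAlg (rep ℓ).ρ F (toCompSys.frobs ℓ)

/-- `g` is an isotropic factor of `Q`: a monic polynomial of degree `r > 0` such that `g(X) X ^ r g(c / X)`
divides `Q` (so the roots `α` of `g` together with the `c / α` are roots of `Q`, with multiplicities). -/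
def IsotropicFactor {K : Type*} [Field K] (c : K) (Q g : K[X]) : Prop :=
  g.Monic ∧ 0 < g.natDegree ∧ g * star c g.natDegree g ∣ Q

/-- The product of the roots of the monic polynomial `g`. -/
def rootProd {K : Type*} [Field K] (g : K[X]) : K := (-1) ^ g.natDegree * g.coeff 0

/-- No power of the product of the roots of an isotropic factor of `P` over `ℚ_ℓ` is in `F`. -/
def NoIsotropicFactor (F : Type*) [Field F] [Algebra ℚ F] (P : ℚ[X]) (c : ℚ) (ℓ : ℕ)
    [Fact ℓ.Prime] : Prop :=
  ∀ g : ℚ_[ℓ][X], IsotropicFactor (algebraMap ℚ ℚ_[ℓ] c) (P.map (algebraMap ℚ ℚ_[ℓ])) g →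
    ∀ N : ℕ, 0 < N → ¬ AlgIn F (rootProd g ^ N)

/-- The products of isotropic sets of roots of `P` are not in `F`, nor are their powers: if `T` is a
nonempty multiset of complex roots of `P` such that `T` and the multiset of the `c / α`, `α ∈ T`, are
together contained in the multiset of the roots of `P`, then no positive power of the product of `T`
lies in `F`. -/
def NoIsotropicRelation (F : Type*) [Field F] [Algebra ℚ F] (P : ℚ[X]) (c : ℚ) : Prop :=
  ∀ T : Multiset ℂ, T ≠ 0 → T + T.map (fun a => (c : ℂ) / a) ≤ P.aroots ℂ →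
    ∀ N : ℕ, 0 < N → ¬ AlgIn F (T.prod ^ N)

end Pool.Agent.B4801b
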