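import Pool.Agent.W_MP_b4801b_h67.Defs
import Pool.Agent.W_f569db_h62.NTL

set_option autoImplicit false

/-! The set of primes `dualPrimes P c` has divergent sum of reciprocals. -/

noncomputable section

open Polynomial

namespace Pool.Agent.B4801b

/-- The radical of a polynomial over `ℚ`. -/
theorem exists_radical (P : ℚ[X]) (hP : P ≠ 0) :
    ∃ Q : ℚ[X], Q.Separable ∧ Q ∣ P ∧ ∀ (L : Type) [Field L] [Algebra ℚ L] (z : L),
      aeval z P = 0 → aeval z Q = 0 := by
  classical
  let s := (UniqueFactorizationMonoid.normalizedFactors P).toFinset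
  let Q := ∏ g ∈ s, g
  have hirr : ∀ g ∈ s, Irreducible g := fun g hg =>
    UniqueFactorizationMonoid.irreducible_of_normalized_factor g (Multiset.mem_toFinset.mp hg)
  have hnorm : ∀ g ∈ s, normalize g = g := fun g hg =>
    UniqueFactorizationMonoid.normalize_normalized_factor g (Multiset.mem_toFinset.mp hg)
  refine ⟨Q, ?_, ?_, ?_⟩
  · refine Polynomial.separable_prod' (fun g hg g' hg' hne => ?_) (fun g hg =>
      (hirr g hg).separable)
    rw [(hirr g hg).coprime_iff_not_dvd]
    intro hd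
    have := (hirr g hg).associated_of_dvd (hirr g' hg') hd
    apply hne
    rw [← hnorm g hg, ← hnorm g' hg']
    exact normalize_eq_normalize_iff_associated.mpr this
  · refine (Multiset.prod_dvd_prod_of_le (Multiset.dedup_le _)).trans
      (UniqueFactorizationMonoid.prod_normalizedFactors hP).dvd |> fun h => ?_
    have : Q = (UniqueFactorizationMonoid.normalizedFactors P).dedup.prod := by
      change ∏ g ∈ (UniqueFactorizationMonoid.normalizedFactors P).toFinset, g = _
      rw [Finset.prod, Multiset.map_id']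
      rfl
    rw [this]
    exact h
  · intro L _ _ z hz
    obtain ⟨u, hu⟩ := UniqueFactorizationMonoid.prod_normalizedFactors hP
    rw [← hu, map_mul, mul_eq_zero] at hz
    rcases hz with hz | hz
    · rw [← Multiset.prod_hom, Multiset.prod_eq_zero_iff, Multiset.mem_map] at hz
      obtain ⟨g, hg, hgz⟩ := hz
      rw [map_prod]
      exact Finset.prod_eq_zero (Multiset.mem_toFinset.mpr hg) hgz
    · exact absurd hz ((u.isUnit.map (aeval z : ℚ[X] →ₐ[ℚ] L)).ne_zero)

theorem not_summable_dualPrimes (P : ℚ[X]) (hP : P ≠ 0) (c : ℚ) (hc : 0 < c)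
    (hpure : ∀ z : ℂ, aeval z P = 0 → ‖z‖ ^ 2 = (c : ℝ)) :
    ¬ Summable (fun ℓ : dualPrimes P c => (1 : ℝ) / (ℓ : ℕ)) := by
  obtain ⟨Q, hQs, hQP, hQ⟩ := exists_radical P hP
  -- `X` is coprime to `Q`
  have h0 : aeval (0 : ℂ) Q ≠ 0 := by
    intro h
    have h1 : aeval (0 : ℂ) P = 0 := by
      obtain ⟨R, rfl⟩ := hQP
      rw [map_mul, h, zero_mul]
    have := hpure 0 h1
    rw [norm_zero] at this
    have hc' : (0 : ℝ) < c := by exact_mod_cast hc
    simp at this
    linarith
  have hcop : IsCoprime X Q := by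
    rw [irreducible_X.coprime_iff_not_dvd]
    rintro ⟨R, rfl⟩
    apply h0
    rw [map_mul, aeval_X, zero_mul]
  obtain ⟨u, v, huv⟩ := hcop
  have hinv : ∀ (L : Type) [Field L] [Algebra ℚ L] (z : L), aeval z Q = 0 →
      z ≠ 0 ∧ aeval z (C c * u) = algebraMap ℚ L c / z := by
    intro L _ _ z hz
    have h1 := congrArg (aeval z) huv
    rw [map_add, map_mul, map_mul, aeval_X, hz, mul_zero, add_zero, map_one] at h1
    have hz0 : z ≠ 0 := by
      rintro rfl
      rw [mul_zero] at h1
      exact zero_ne_one h1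
    refine ⟨hz0, ?_⟩
    rw [map_mul, aeval_C, eq_div_iff hz0, mul_assoc, h1, mul_one]
  have hmain := Pool.Agent.H62D.not_summable_conjSet (r := 1) (fun _ => Q) (fun _ => C c * u)
    (fun _ => hQs) (fun _ z hz => by
      obtain ⟨hz0, h1⟩ := hinv ℂ z hz
      rw [h1]
      have h2 : aeval z P = 0 := by
        obtain ⟨R, rfl⟩ := hQP
        rw [map_mul, hz, zero_mul]
      have h3 := hpure z h2
      have h4 : (algebraMap ℚ ℂ c) = z * starRingEnd ℂ z := by
        rw [Complex.mul_conj, Complex.normSq_eq_norm_sq, h3]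
        simp
      rw [h4, mul_div_assoc, mul_comm, div_mul_cancel₀ _ hz0])
  intro hs
  apply hmain
  refine Pool.Agent.H62D.ntl_aux2 _ _ hs ?_
  rintro ℓ ⟨hℓ, hσ⟩
  haveI : Fact ℓ.Prime := ⟨hℓ⟩
  obtain ⟨σ, hσ⟩ := hσ
  refine ⟨hℓ, ?_⟩
  intro g hg hgP α hα
  have hαP : aeval α P = 0 := by
    have h1 : aeval α (P.map (algebraMap ℚ ℚ_[ℓ])) = 0 := by
      obtain ⟨R, hR⟩ := hgP
      rw [hR, map_mul, hα, zero_mul]
    rwa [aeval_map_algebraMap] at h1
  have hαQ := hQ _ α hαP
  have h2 := hσ 0 α hαQ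
  rw [(hinv _ α hαQ).2] at h2
  rw [← IsScalarTower.algebraMap_apply, ← h2]
  have := Polynomial.aeval_algHom_apply (σ : AlgebraicClosure ℚ_[ℓ] →ₐ[ℚ_[ℓ]] AlgebraicClosure ℚ_[ℓ]) α g
  rw [hα, map_zero] at this
  exact this

end Pool.Agent.B4801b
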