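import Pool.Agent.W_MP_b4801b_h67.Defs2
import Pool.Agent.W_MP_b4801b_h67.Rel

set_option autoImplicit false

/-! Transfer of multisets of roots from `ℚ_ℓ̄` to `ℂ`. -/

noncomputable section

open Polynomial Module

namespace Pool.Agent.B4801b

theorem algIn_map (F : Type*) [Field F] [Algebra ℚ F] {L M : Type*} [Field L] [Algebra ℚ L]
    [Field M] [Algebra ℚ M] (i : L →ₐ[ℚ] M) (z : L) : AlgIn F (i z) ↔ AlgIn F z := by
  constructor
  · rintro ⟨g, h1, h2, h3⟩
    refine ⟨g, h1, h2, ?_⟩
    rw [Polynomial.aeval_algHom_apply] at h3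
    exact (map_eq_zero i).mp h3
  · rintro ⟨g, h1, h2, h3⟩
    exact ⟨g, h1, h2, by rw [Polynomial.aeval_algHom_apply, h3, map_zero]⟩

theorem aroots_map_of_closed {L M : Type*} [Field L] [Algebra ℚ L] [IsAlgClosed L]
    [Field M] [Algebra ℚ M] (i : L →ₐ[ℚ] M) (P : ℚ[X]) : P.aroots M = (P.aroots L).map i := by
  have h := (IsAlgClosed.splits (P.map (algebraMap ℚ L))).roots_map (i : L →+* M)
  rw [Polynomial.map_map] at h
  have h1 : (i : L →+* M).comp (algebraMap ℚ L) = algebraMap ℚ M := i.comp_algebraMap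
  rw [h1] at h
  exact h

theorem transfer (F : Type*) [Field F] [Algebra ℚ F] (P : ℚ[X]) (c : ℚ)
    (h : NoIsotropicRelation F P c) (M : Type*) [Field M] [Algebra ℚ M] [IsAlgClosed M]
    (S : Multiset M) (hS : S ≠ 0) (hP : S + S.map (fun a => algebraMap ℚ M c / a) ≤ P.aroots M)
    (N : ℕ) (hN : 0 < N) : ¬ AlgIn F (S.prod ^ N) := by
  let L := AlgebraicClosure ℚ
  haveI : Algebra.IsAlgebraic ℚ L := AlgebraicClosure.isAlgebraic ℚ
  let i : L →ₐ[ℚ] M := IsAlgClosed.lift
  let j : L →ₐ[ℚ] ℂ := IsAlgClosed.lift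
  have hSr : ∀ a ∈ S, ∃ b : L, i b = a := by
    intro a ha
    have h1 : a ∈ P.aroots M := Multiset.mem_of_le hP (Multiset.mem_add.mpr (Or.inl ha))
    rw [aroots_map_of_closed i] at h1
    obtain ⟨b, _, hb⟩ := Multiset.mem_map.mp h1
    exact ⟨b, hb⟩
  obtain ⟨S₁, rfl⟩ : ∃ S₁ : Multiset L, S₁.map i = S := by
    choose! f hf using hSr
    refine ⟨S.map f, ?_⟩
    rw [Multiset.map_map]
    conv_rhs => rw [← Multiset.map_id S]
    exact Multiset.map_congr rfl fun a ha => hf a ha
  have h1 : S₁ + S₁.map (fun a => algebraMap ℚ L c / a) ≤ P.aroots L := by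
    have hi : Function.Injective (i : L → M) := i.toRingHom.injective
    rw [← Multiset.map_le_map_iff hi, ← aroots_map_of_closed i, Multiset.map_add]
    refine le_trans (le_of_eq ?_) hP
    congr 1
    rw [Multiset.map_map, Multiset.map_map]
    refine Multiset.map_congr rfl fun a _ => ?_
    rw [Function.comp_apply, Function.comp_apply, map_div₀, i.commutes]
  have h2 : S₁.map j + (S₁.map j).map (fun a => (c : ℂ) / a) ≤ P.aroots ℂ := by
    rw [aroots_map_of_closed j]
    refine le_trans (le_of_eq ?_) (Multiset.map_le_map h1)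
    rw [Multiset.map_add]
    congr 1
    rw [Multiset.map_map, Multiset.map_map]
    refine Multiset.map_congr rfl fun a _ => ?_
    rw [Function.comp_apply, Function.comp_apply, map_div₀, j.commutes]
    rfl
  have h3 := h (S₁.map j) (by
    intro h0
    apply hS
    rw [Multiset.map_eq_zero] at h0 ⊢
    exact h0) h2 N hN
  intro h4
  apply h3
  rw [← map_multiset_prod, ← map_pow, algIn_map] at h4 ⊢
  exact h4

end Pool.Agent.B4801b
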