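import Pool.Agent.W_MP_b4801b_h67.Defs2
import Pool.Agent.W_MP_b4801b_h67.Main
import Pool.Agent.W_MP_b4801b_h67.Transfer

set_option autoImplicit false

/-!
# Semisimplicity for all `ℓ` from one Frobenius element without relations

Let `S` be a polarized pure compatible system over `k` whose determinants are algebraic with values in
the field `F` (for example the étale cohomology `H^w(X ×_k k̄, ℚ_ℓ)` of a smooth projective variety `X`
over a number field `k`, `F` the Galois closure of `k`).  If at one place `x` no power of the product of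
an isotropic set of Frobenius eigenvalues lies in `F`, then `V_ℓ` is semisimple for every `ℓ ≠ p_x`.  The
same holds for one prime `ℓ` if only the isotropic factors of `P_x` over `ℚ_ℓ` have this property.
-/

open Pool.Agent.B4801b Polynomial

universe u v

theorem Pool.Agent.B4801b.oldNoRelation
    (k : Type u) [Field k] (w : ℕ) (F : Type*) [Field F] [Algebra ℚ F]
    (S : AlgCompSys.{u, v} k w F) (x : Place k) (hx : x ∈ S.Pl) :
    ∀ (ℓ : ℕ) [Fact ℓ.Prime], ℓ ≠ x.p →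
      (NoIsotropicRelation F (S.P x) ((x.q : ℚ) ^ w) ∨
        NoIsotropicFactor F (S.P x) ((x.q : ℚ) ^ w) ℓ) → (S.rep ℓ).Semisimple := by
  intro ℓ _ hℓ h W hW
  have hq0 : x.q ≠ 0 := by
    intro h0
    have := x.cyc_frob ℓ hℓ
    rw [h0, Nat.cast_zero, mul_zero] at this
    exact zero_ne_one this
  have hqc : ((x.q : ℚ_[ℓ]) ^ w) ≠ 0 := pow_ne_zero _ (Nat.cast_ne_zero.mpr hq0)
  have hchar : ((S.rep ℓ).ρ x.frob).charpoly = (S.P x).map (algebraMap ℚ ℚ_[ℓ]) :=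
    S.charpoly_frob x hx ℓ hℓ
  have hφc : ∀ a b, (S.rep ℓ).ψ ((S.rep ℓ).ρ x.frob a) ((S.rep ℓ).ρ x.frob b) =
      (x.q : ℚ_[ℓ]) ^ w * (S.rep ℓ).ψ a b := by
    intro a b
    rw [← (S.rep ℓ).equivariant x.frob a b, ← mul_assoc, ← mul_pow, mul_comm (x.q : ℚ_[ℓ]),
      x.cyc_frob ℓ hℓ, one_pow, one_mul]
  -- the orthogonal is stable
  have hperp : ∀ σ, ∀ y ∈ perp (S.rep ℓ).ψ W, (S.rep ℓ).ρ σ y ∈ perp (S.rep ℓ).ψ W := by
    intro σ y hy z hz
    have h1 : (S.rep ℓ).ρ σ ((S.rep ℓ).ρ σ⁻¹ z) = z := by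
      rw [← Module.End.mul_apply, ← map_mul, mul_inv_cancel, map_one, Module.End.one_apply]
    have h2 : (S.rep ℓ).ψ ((S.rep ℓ).ρ σ⁻¹ z) y = 0 := hy _ (hW _ _ hz)
    have h3 := (S.rep ℓ).equivariant σ ((S.rep ℓ).ρ σ⁻¹ z) y
    rw [h1, h2] at h3
    rcases mul_eq_zero.mp h3 with h | h
    · have : ∀ a b, (S.rep ℓ).ψ a b = 0 := fun a b => by
        rw [← (S.rep ℓ).equivariant σ a b, h, zero_mul]
      exact this _ _
    · exact h
  refine ⟨perp (S.rep ℓ).ψ W, hperp, isCompl_perp _ _ ?_⟩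
  -- the intersection
  have hI : ∀ σ, ∀ y ∈ W ⊓ perp (S.rep ℓ).ψ W, (S.rep ℓ).ρ σ y ∈ W ⊓ perp (S.rep ℓ).ψ W :=
    fun σ y hy => ⟨hW σ y hy.1, hperp σ y hy.2⟩
  have hiso : ∀ a ∈ W ⊓ perp (S.rep ℓ).ψ W, ∀ b ∈ W ⊓ perp (S.rep ℓ).ψ W, (S.rep ℓ).ψ a b = 0 :=
    fun a ha b hb => hb.2 a ha.1
  obtain ⟨N, hN, hdet⟩ := S.det_alg ℓ (W ⊓ perp (S.rep ℓ).ψ W) hI
  have hdetx := hdet x.frob ⟨x, hx, hℓ, rfl⟩
  have hbot : W ⊓ perp (S.rep ℓ).ψ W = ⊥ := by
    by_contra hne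
    rcases h with h | h
    · obtain ⟨T, hT1, hT2, hT3⟩ := exists_relation (AlgebraicClosure ℚ_[ℓ]) (S.rep ℓ).ψ
        (S.rep ℓ).nondeg ((S.rep ℓ).ρ x.frob) _ hqc hφc (W ⊓ perp (S.rep ℓ).ψ W) (hI x.frob) hiso
      have hT0 : T ≠ 0 := by
        intro h0
        rw [h0, Multiset.card_zero] at hT1
        exact hne (Submodule.finrank_eq_zero.mp hT1.symm)
      refine transfer F (S.P x) _ h (AlgebraicClosure ℚ_[ℓ]) T hT0 ?_ N hN ?_
      · rw [hchar] at hT3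
        have e1 : ((S.P x).map (algebraMap ℚ ℚ_[ℓ])).aroots (AlgebraicClosure ℚ_[ℓ]) =
            (S.P x).aroots (AlgebraicClosure ℚ_[ℓ]) := by
          rw [Polynomial.aroots, Polynomial.aroots, Polynomial.map_map,
            ← IsScalarTower.algebraMap_eq]
        rw [e1] at hT3
        refine le_trans (le_of_eq ?_) hT3
        simp only [map_pow, map_natCast]
      · rw [hT2, ← map_pow]
        exact (algIn_map F (IsScalarTower.toAlgHom ℚ ℚ_[ℓ] (AlgebraicClosure ℚ_[ℓ])) _).mpr hdetx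
    · obtain ⟨g, hg1, hg2, hg3, hg4⟩ := exists_factor (S.rep ℓ).ψ
        (S.rep ℓ).nondeg ((S.rep ℓ).ρ x.frob) _ hqc hφc (W ⊓ perp (S.rep ℓ).ψ W) (hI x.frob) hiso
      refine h g ⟨hg1, ?_, ?_⟩ N hN ?_
      · rw [hg2]
        exact Nat.pos_of_ne_zero fun h0 => hne (Submodule.finrank_eq_zero.mp h0)
      · rw [hchar] at hg4
        rw [map_pow, map_natCast]
        exact hg4
      · rw [rootProd, hg3]
        exact hdetx
  intro y hy hy'
  have hyI : y ∈ W ⊓ perp (S.rep ℓ).ψ W := ⟨hy, hy'⟩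
  rw [hbot] at hyI
  exact (Submodule.mem_bot _).mp hyI
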