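import Pool.Agent.W_MP_b4801b_h67.Defs
import Pool.Agent.W_MP_b4801b_h67.Main
import Pool.Agent.W_MP_b4801b_h67.Lam

set_option autoImplicit false

/-!
# Semisimplicity for many primes from one Frobenius element

Let `S` be a polarized pure `ℚ`-rational compatible system of weight `w` over a field `k` (for example
the étale cohomology `H^w(X ×_k k̄, ℚ_ℓ)` of a smooth projective variety `X` over a finitely generated
field of characteristic zero) and `v` a place with Frobenius polynomial `P_v`.  Let `Λ_v` be the set of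
primes `ℓ` such that the roots of every irreducible factor of `P_v` over `ℚ_ℓ` are permuted by
`α ↦ q_v ^ w / α`.  Then the sum of the `1 / ℓ` over `Λ_v` is infinite, and `V_ℓ` is a semisimple
representation of the Galois group for every `ℓ ≠ p_v` in `Λ_v`, provided that `P_v` is separable or, more
generally, that the primary components of Frobenius are irreducible under Frobenius and correspondences.
-/

open Pool.Agent.B4801b Polynomial

universe u v

theorem Pool.Agent.B4801b.oldOneFrobenius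
    (k : Type u) [Field k] (w : ℕ) (S : CompSys.{u, v} k w) (x : Place k) (hx : x ∈ S.Pl) :
    (¬ Summable fun ℓ : S.dualPrimes x => (1 : ℝ) / (ℓ : ℕ)) ∧
    ∀ (ℓ : ℕ) [Fact ℓ.Prime], ℓ ≠ x.p → ℓ ∈ S.dualPrimes x →
      ((S.P x).Separable ∨ (S.rep ℓ).IrredAt x.frob) → (S.rep ℓ).Semisimple := by
  have hq : ∀ (ℓ : ℕ) [Fact ℓ.Prime], ℓ ≠ x.p → x.q ≠ 0 := by
    intro ℓ _ hℓ h0
    have := x.cyc_frob ℓ hℓ
    rw [h0, Nat.cast_zero, mul_zero] at this
    exact zero_ne_one this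
  obtain ⟨ℓ₀, hℓ₀p, hℓ₀⟩ : ∃ ℓ : ℕ, ℓ.Prime ∧ ℓ ≠ x.p := by
    by_cases h : x.p = 2
    · exact ⟨3, Nat.prime_three, by rw [h]; decide⟩
    · exact ⟨2, Nat.prime_two, fun h' => h h'.symm⟩
  haveI : Fact ℓ₀.Prime := ⟨hℓ₀p⟩
  have hq0 := hq ℓ₀ hℓ₀
  have hP0 : S.P x ≠ 0 := by
    intro h
    have : ((S.rep ℓ₀).ρ x.frob).charpoly = _ := S.charpoly_frob x hx ℓ₀ hℓ₀
    rw [h, Polynomial.map_zero] at this
    exact (LinearMap.charpoly_monic ((S.rep ℓ₀).ρ x.frob)).ne_zero this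
  constructor
  · refine not_summable_dualPrimes (S.P x) hP0 _ (by positivity) ?_
    intro z hz
    rw [S.pure x hx z hz]
    push_cast
    ring
  · intro ℓ _ hℓ hdual hsep
    have hchar : ((S.rep ℓ).ρ x.frob).charpoly = (S.P x).map (algebraMap ℚ ℚ_[ℓ]) :=
      S.charpoly_frob x hx ℓ hℓ
    obtain ⟨_, hdual⟩ := hdual
    have hqc : ((x.q : ℚ_[ℓ]) ^ w) ≠ 0 := pow_ne_zero _ (Nat.cast_ne_zero.mpr hq0)
    have hφc : ∀ a b, (S.rep ℓ).ψ ((S.rep ℓ).ρ x.frob a) ((S.rep ℓ).ρ x.frob b) =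
        (x.q : ℚ_[ℓ]) ^ w * (S.rep ℓ).ψ a b := by
      intro a b
      rw [← (S.rep ℓ).equivariant x.frob a b, ← mul_assoc, ← mul_pow, mul_comm (x.q : ℚ_[ℓ]),
        x.cyc_frob ℓ hℓ, one_pow, one_mul]
    have hdual' : ∀ g : ℚ_[ℓ][X], Irreducible g → g ∣ ((S.rep ℓ).ρ x.frob).charpoly →
        SelfDualPoly ((x.q : ℚ_[ℓ]) ^ w) g := by
      intro g hg hd
      rw [hchar] at hd
      have := hdual g hg hd
      rwa [map_pow, map_natCast] at this
    rcases hsep with hsep | ⟨C, hγ, hirr⟩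
    · refine isSemisimpleRep_of_selfDual (S.rep ℓ).ρ (S.rep ℓ).ψ (S.rep ℓ).nondeg
        (fun σ => cyc k ℓ σ ^ w) (S.rep ℓ).equivariant ⊤ inferInstance ∅ (by simp [CommutesWith])
        (by simp [AdjointClosed]) x.frob (Subgroup.mem_top _) _ hqc hφc hdual' ?_
      intro g hg U hU _ hUg
      refine irred_of_squarefree _ ?_ g hg U hU hUg
      rw [hchar]
      exact (hsep.map).squarefree
    · exact isSemisimpleRep_of_selfDual (S.rep ℓ).ρ (S.rep ℓ).ψ (S.rep ℓ).nondeg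
        (fun σ => cyc k ℓ σ ^ w) (S.rep ℓ).equivariant C.Γ C.finiteIndex C.E C.comm C.adj x.frob
        hγ _ hqc hφc hdual' hirr
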