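import Mathlib

set_option autoImplicit false

/-!
# `ℓ`-adic cohomology of schemes and the Galois action

* `coeff ℓ`: the sheaf `U ↦ C(U, ℚ_ℓ)` on the big pro-étale site of all schemes (Mathlib's
  `continuousMapPresheafAb`, the same sheaf as in Mathlib's `EllAdicCohomology`, with `ℚ_ℓ` instead of
  `ℤ_ℓ`).
* `H ℓ n X = Ext^n(ℤ[X], coeff ℓ)`: the cohomology `H^n(X, ℚ_ℓ)` of the scheme `X`; a vector space over
  `ℚ_ℓ`, contravariant in `X`.
* `geom X`: the geometric fibre `X ×_k k̄` of a scheme `X` over the field `k`.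
* `galRep X ℓ n`: the representation of `Gal(k̄ / k)` on `H^n(X ×_k k̄, ℚ_ℓ)` by functoriality in the
  second factor.
-/

noncomputable section

open CategoryTheory Limits AlgebraicGeometry Opposite Abelian

universe u

namespace Pool.Agent.B4801b

/-- The sheaf `U ↦ C(U, ℚ_ℓ)` (continuous functions) on the big pro-étale site, small version. -/
def coeff₀ (ℓ : ℕ) [Fact ℓ.Prime] : Sheaf Scheme.proetaleTopology.{u} Ab.{u} :=
  ⟨continuousMapPresheafAb ℚ_[ℓ],
    .of_le Scheme.proetaleTopology_le_fpqcTopology (isSheaf_fpqcTopology_continuousMapPresheafAb _)⟩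

/-- The sheaf `U ↦ C(U, ℚ_ℓ)` on the big pro-étale site of all schemes, with values in large abelian
groups. -/
def coeff (ℓ : ℕ) [Fact ℓ.Prime] : Sheaf Scheme.proetaleTopology.{u} Ab.{u + 1} :=
  (sheafCompose _ AddCommGrpCat.uliftFunctor.{u + 1}).obj (coeff₀ ℓ)

/-- Multiplication by the constant `r : ℚ_ℓ` on the sheaf `coeff₀ ℓ`. -/
def coeffSMul₀ (ℓ : ℕ) [Fact ℓ.Prime] (r : ℚ_[ℓ]) : coeff₀.{u} ℓ ⟶ coeff₀.{u} ℓ :=
  ⟨{ app := fun U => AddCommGrpCat.ofHom (DistribMulAction.toAddMonoidHom C(U.unop, ℚ_[ℓ]) r)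
     naturality := fun U V f => by
      ext g
      rfl }⟩

/-- Multiplication by the constant `r : ℚ_ℓ` on the sheaf `coeff ℓ`. -/
def coeffSMul (ℓ : ℕ) [Fact ℓ.Prime] (r : ℚ_[ℓ]) : coeff.{u} ℓ ⟶ coeff.{u} ℓ :=
  (sheafCompose _ AddCommGrpCat.uliftFunctor.{u + 1}).map (coeffSMul₀ ℓ r)

section

variable (ℓ : ℕ) [Fact ℓ.Prime]

theorem coeffSMul_one : coeffSMul.{u} ℓ 1 = 𝟙 _ := by
  apply Sheaf.hom_ext
  ext U x
  let f : C(U.unop, ℚ_[ℓ]) := x.down
  exact ULift.ext _ _ (one_smul ℚ_[ℓ] f)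

theorem coeffSMul_zero : coeffSMul.{u} ℓ 0 = 0 := by
  apply Sheaf.hom_ext
  ext U x
  let f : C(U.unop, ℚ_[ℓ]) := x.down
  exact ULift.ext _ _ (zero_smul ℚ_[ℓ] f)

theorem coeffSMul_mul (r s : ℚ_[ℓ]) :
    coeffSMul.{u} ℓ (r * s) = coeffSMul ℓ s ≫ coeffSMul ℓ r := by
  apply Sheaf.hom_ext
  ext U x
  let f : C(U.unop, ℚ_[ℓ]) := x.down
  exact ULift.ext _ _ (mul_smul r s f)

theorem coeffSMul_add (r s : ℚ_[ℓ]) :
    coeffSMul.{u} ℓ (r + s) = coeffSMul ℓ r + coeffSMul ℓ s := by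
  apply Sheaf.hom_ext
  ext U x
  let f : C(U.unop, ℚ_[ℓ]) := x.down
  exact ULift.ext _ _ (add_smul r s f)

end

/-- The free abelian sheaf `ℤ[X]` on the scheme `X` (the sheaf associated to `U ↦ ℤ[Hom(U, X)]`). -/
def freeSheaf : Scheme.{u} ⥤ Sheaf Scheme.proetaleTopology.{u} Ab.{u + 1} :=
  yoneda ⋙ (Functor.whiskeringRight _ _ _).obj (uliftFunctor.{u + 1} ⋙ AddCommGrpCat.free) ⋙
    presheafToSheaf _ _

instance : IsGrothendieckAbelian.{u + 1} (Sheaf Scheme.proetaleTopology.{u} Ab.{u + 1}) := by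
  have : EssentiallySmall.{u + 1} Scheme.{u} := inferInstance
  exact Sheaf.isGrothendieckAbelian_of_essentiallySmall Scheme.proetaleTopology.{u} Ab.{u + 1}

/-- The action of `ℚ_ℓ` on `Ext^n(A, coeff ℓ)` through the action on the sheaf `coeff ℓ`. -/
abbrev extModule (ℓ : ℕ) [Fact ℓ.Prime] (n : ℕ)
    (A : Sheaf Scheme.proetaleTopology.{u} Ab.{u + 1}) : Module ℚ_[ℓ] (Ext A (coeff.{u} ℓ) n) where
  smul r x := Ext.comp x (Ext.mk₀ (coeffSMul ℓ r)) (add_zero n)
  one_smul x := by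
    change Ext.comp x (Ext.mk₀ (coeffSMul ℓ 1)) (add_zero n) = x
    rw [coeffSMul_one, Ext.comp_mk₀_id]
  mul_smul r s x := by
    change Ext.comp x (Ext.mk₀ (coeffSMul ℓ (r * s))) (add_zero n) =
      Ext.comp (Ext.comp x (Ext.mk₀ (coeffSMul ℓ s)) (add_zero n)) (Ext.mk₀ (coeffSMul ℓ r)) (add_zero n)
    rw [coeffSMul_mul, Ext.comp_assoc_of_third_deg_zero, Ext.mk₀_comp_mk₀]
  smul_zero r := by
    change Ext.comp (0 : Ext A (coeff.{u} ℓ) n) (Ext.mk₀ (coeffSMul ℓ r)) (add_zero n) = 0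
    rw [Ext.zero_comp]
  smul_add r x y := by
    change Ext.comp (x + y) (Ext.mk₀ (coeffSMul ℓ r)) (add_zero n) =
      Ext.comp x (Ext.mk₀ (coeffSMul ℓ r)) (add_zero n) + Ext.comp y (Ext.mk₀ (coeffSMul ℓ r)) (add_zero n)
    rw [Ext.add_comp]
  add_smul r s x := by
    change Ext.comp x (Ext.mk₀ (coeffSMul ℓ (r + s))) (add_zero n) =
      Ext.comp x (Ext.mk₀ (coeffSMul ℓ r)) (add_zero n) + Ext.comp x (Ext.mk₀ (coeffSMul ℓ s)) (add_zero n)
    rw [coeffSMul_add, Ext.mk₀_add, Ext.comp_add]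
  zero_smul x := by
    change Ext.comp x (Ext.mk₀ (coeffSMul ℓ 0)) (add_zero n) = 0
    rw [coeffSMul_zero, Ext.mk₀_zero, Ext.comp_zero]

/-- The `ℓ`-adic cohomology `H^n(X, ℚ_ℓ)` of a scheme `X`: the cohomology of the object `X` of the big
pro-étale site with coefficients in the sheaf `U ↦ C(U, ℚ_ℓ)`. -/
def H (ℓ : ℕ) [Fact ℓ.Prime] (n : ℕ) (X : Scheme.{u}) : Type (u + 1) :=
  Ext (freeSheaf.obj X) (coeff ℓ) n

section

variable (ℓ : ℕ) [Fact ℓ.Prime] (n : ℕ)

instance (X : Scheme.{u}) : AddCommGroup (H ℓ n X) :=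
  inferInstanceAs (AddCommGroup (Ext (freeSheaf.obj X) (coeff ℓ) n))

instance (X : Scheme.{u}) : Module ℚ_[ℓ] (H ℓ n X) :=
  extModule ℓ n (freeSheaf.obj X)

/-- The pull-back along a morphism of sheaves `A ⟶ B`. -/
def extPull {A B : Sheaf Scheme.proetaleTopology.{u} Ab.{u + 1}} (f : A ⟶ B) :
    letI := extModule ℓ n A
    letI := extModule ℓ n B
    Ext B (coeff.{u} ℓ) n →ₗ[ℚ_[ℓ]] Ext A (coeff.{u} ℓ) n :=
  letI := extModule ℓ n A
  letI := extModule ℓ n B
  { toFun := fun x => Ext.comp (Ext.mk₀ f) x (zero_add n)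
    map_add' := fun x y => Ext.comp_add _ _ _ _
    map_smul' := fun r x => by
      change Ext.comp (Ext.mk₀ f) (Ext.comp x (Ext.mk₀ (coeffSMul ℓ r)) (add_zero n))
        (zero_add n) = Ext.comp (Ext.comp (Ext.mk₀ f) x (zero_add n))
          (Ext.mk₀ (coeffSMul ℓ r)) (add_zero n)
      rw [Ext.comp_assoc_of_third_deg_zero] }

/-- The pull-back `H^n(Y, ℚ_ℓ) → H^n(X, ℚ_ℓ)` along a morphism of schemes `X ⟶ Y`. -/
def pull {X Y : Scheme.{u}} (f : X ⟶ Y) : H ℓ n Y →ₗ[ℚ_[ℓ]] H ℓ n X :=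
  extPull ℓ n (freeSheaf.map f)

theorem pull_id (X : Scheme.{u}) : pull ℓ n (𝟙 X) = LinearMap.id := by
  refine LinearMap.ext fun x => ?_
  have h : ∀ y : Ext (freeSheaf.obj X) (coeff.{u} ℓ) n,
      Ext.comp (Ext.mk₀ (freeSheaf.map (𝟙 X))) y (zero_add n) = y := fun y => by
    rw [CategoryTheory.Functor.map_id, Ext.mk₀_id_comp]
  exact h x

theorem pull_comp {X Y Z : Scheme.{u}} (f : X ⟶ Y) (g : Y ⟶ Z) :
    pull ℓ n (f ≫ g) = (pull ℓ n f).comp (pull ℓ n g) := by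
  refine LinearMap.ext fun x => ?_
  have h : ∀ y : Ext (freeSheaf.obj Z) (coeff.{u} ℓ) n,
      Ext.comp (Ext.mk₀ (freeSheaf.map (f ≫ g))) y (zero_add n) =
        Ext.comp (Ext.mk₀ (freeSheaf.map f)) (Ext.comp (Ext.mk₀ (freeSheaf.map g)) y (zero_add n))
          (zero_add n) := fun y => by
    rw [CategoryTheory.Functor.map_comp, ← Ext.mk₀_comp_mk₀_assoc]
  exact h x

end

section

variable {k : Type u} [Field k]

/-- The absolute Galois group `Gal(k̄ / k)`. -/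
abbrev Gal (k : Type u) [Field k] : Type u := AlgebraicClosure k ≃ₐ[k] AlgebraicClosure k

/-- The morphism `Spec k̄ ⟶ Spec k`. -/
abbrev toBase (k : Type u) [Field k] :
    Spec (.of (AlgebraicClosure k)) ⟶ Spec (.of k) :=
  Spec.map (CommRingCat.ofHom (algebraMap k (AlgebraicClosure k)))

/-- The geometric fibre `X̄ = X ×_k k̄`. -/
abbrev geom (X : Over (Spec (.of k))) : Scheme.{u} := pullback X.hom (toBase k)

/-- The morphism `Spec k̄ ⟶ Spec k̄` given by `σ ∈ Gal(k̄ / k)`. -/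
abbrev specGal (σ : Gal k) :
    Spec (.of (AlgebraicClosure k)) ⟶ Spec (.of (AlgebraicClosure k)) :=
  Spec.map (CommRingCat.ofHom (σ : AlgebraicClosure k →+* AlgebraicClosure k))

theorem specGal_toBase (σ : Gal k) : specGal σ ≫ toBase k = toBase k := by
  rw [← Spec.map_comp, ← CommRingCat.ofHom_comp]
  have : (σ : AlgebraicClosure k →+* AlgebraicClosure k).comp (algebraMap k (AlgebraicClosure k)) =
      algebraMap k (AlgebraicClosure k) := RingHom.ext fun x => σ.commutes x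
  rw [this]

/-- The automorphism `id × Spec σ` of `X̄ = X ×_k k̄`. -/
def galMap (X : Over (Spec (.of k))) (σ : Gal k) : geom X ⟶ geom X :=
  pullback.map X.hom (toBase k) X.hom (toBase k) (𝟙 _) (specGal σ) (𝟙 _) (by simp)
    (by rw [Category.comp_id, specGal_toBase])

theorem specGal_one : specGal (1 : Gal k) = 𝟙 _ := by
  have : ((1 : Gal k) : AlgebraicClosure k →+* AlgebraicClosure k) = RingHom.id _ := rfl
  rw [specGal, this, CommRingCat.ofHom_id, Spec.map_id]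

theorem specGal_mul (σ τ : Gal k) : specGal (σ * τ) = specGal σ ≫ specGal τ := by
  have : ((σ * τ : Gal k) : AlgebraicClosure k →+* AlgebraicClosure k) =
    (σ : AlgebraicClosure k →+* AlgebraicClosure k).comp
      (τ : AlgebraicClosure k →+* AlgebraicClosure k) := rfl
  rw [specGal, specGal, specGal, this, CommRingCat.ofHom_comp, Spec.map_comp]

theorem galMap_one (X : Over (Spec (.of k))) : galMap X 1 = 𝟙 _ := by
  refine pullback.hom_ext ?_ ?_
  · rw [galMap, pullback.map, pullback.lift_fst, Category.comp_id, Category.id_comp]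
  · rw [galMap, pullback.map, pullback.lift_snd, specGal_one, Category.comp_id, Category.id_comp]

theorem galMap_mul (X : Over (Spec (.of k))) (σ τ : Gal k) :
    galMap X (σ * τ) = galMap X σ ≫ galMap X τ := by
  refine pullback.hom_ext ?_ ?_
  · simp only [galMap, pullback.map, pullback.lift_fst, Category.comp_id, Category.assoc]
  · simp only [galMap, pullback.map, pullback.lift_snd, specGal_mul, Category.assoc,
      pullback.lift_snd_assoc]

/-- The representation of `Gal(k̄ / k)` on `H^n(X̄, ℚ_ℓ)`. -/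
def galRep (X : Over (Spec (.of k))) (ℓ : ℕ) [Fact ℓ.Prime] (n : ℕ) :
    Representation ℚ_[ℓ] (Gal k) (H ℓ n (geom X)) where
  toFun σ := pull ℓ n (galMap X σ)
  map_one' := by
    rw [galMap_one, pull_id]
    rfl
  map_mul' σ τ := by
    rw [galMap_mul, pull_comp]
    rfl

end

end Pool.Agent.B4801b
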